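import Pool.Agent.Helper70_AK.Cut

set_option autoImplicit false

/-!
Squad AK, module B5: the data on the torus exist.
-/

namespace Pool.Agent.AK.H70

open Complex Set Topology

/-! ### local rules -/

lemma Dd_congr {u v : C2 → ℂ} {p : C2} (h : u =ᶠ[𝓝 p] v) (w : C2) : Dd w u p = Dd w v p := by
  unfold Dd
  rw [h.fderiv_eq]

lemma Lbar_congr {ρ : C2 → ℝ} {u v : C2 → ℂ} {p : C2} (h : u =ᶠ[𝓝 p] v) :
    Lbar ρ u p = Lbar ρ v p := by
  unfold Lbar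
  simp only [dzb_eq, Dd_congr h]

lemma Lhol_congr {ρ : C2 → ℝ} {u v : C2 → ℂ} {p : C2} (h : u =ᶠ[𝓝 p] v) :
    Lhol ρ u p = Lhol ρ v p := by
  unfold Lhol
  simp only [dz_eq, Dd_congr h]

lemma Lbar_cmul {ρ : C2 → ℝ} (c : ℂ) {u : C2 → ℂ} {p : C2} (hu : DifferentiableAt ℝ u p) :
    Lbar ρ (fun q => c * u q) p = c * Lbar ρ u p := by
  rw [Lbar_mul (differentiableAt_const c) hu]
  have : Lbar ρ (fun _ : C2 => c) p = 0 := by
    unfold Lbar
    simp [dzb_eq, Dd_const]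
  rw [this]
  ring

lemma Lhol_cmul {ρ : C2 → ℝ} (c : ℂ) {u : C2 → ℂ} {p : C2} (hu : DifferentiableAt ℝ u p) :
    Lhol ρ (fun q => c * u q) p = c * Lhol ρ u p := by
  unfold Lhol
  rw [dz_mul 0 (differentiableAt_const c) hu, dz_mul 1 (differentiableAt_const c) hu]
  simp only [dz_eq, Dd_const, smul_eq_mul]
  ring

lemma div_on {f g : C2 → ℂ} {s : Set C2} (hf : ContDiffOn ℝ ((⊤ : ℕ∞) : WithTop ℕ∞) f s)
    (hg : ContDiffOn ℝ ((⊤ : ℕ∞) : WithTop ℕ∞) g s) (h0 : ∀ x ∈ s, g x ≠ 0) :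
    ContDiffOn ℝ ((⊤ : ℕ∞) : WithTop ℕ∞) (fun p => f p / g p) s := by
  simp only [div_eq_mul_inv]
  exact hf.mul (hg.inv h0)

/-! ### coefficients -/

noncomputable def kap (R : ℝ) : Fin 4 → ℂ := ![1 / (2 * R), I / (2 * R), - 1 / (2 * R), - I / (2 * R)]

noncomputable def bf (ρ : C2 → ℝ) : Fin 4 → C2 → ℂ := ![rjb ρ 1, rjb ρ 1, rjb ρ 0, rjb ρ 0]

noncomputable def rb (ρ : C2 → ℝ) : Fin 4 → C2 → ℂ := ![rj ρ 1, rj ρ 1, rj ρ 0, rj ρ 0]

noncomputable def wf (ρ : C2 → ℝ) : Fin 4 → C2 → ℂ :=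
  ![rjb ρ 0, rjb ρ 0, fun p => - rjb ρ 1 p, fun p => - rjb ρ 1 p]

noncomputable def fA' (ρ : C2 → ℝ) (R : ℝ) (x₂ : C2 → ℝ) (j : Fin 4) (p : C2) : ℂ :=
  ((x₂ p : ℝ) : ℂ) * (kap R j * bf ρ j p)

noncomputable def fAc (ρ : C2 → ℝ) (R : ℝ) (x₂ : C2 → ℝ) (j : Fin 4) (p : C2) : ℂ :=
  (starRingEnd ℂ) (fA' ρ R x₂ j p)

noncomputable def fT (ρ : C2 → ℝ) (R : ℝ) (x₂ : C2 → ℝ) (j : Fin 4) (p : C2) : ℂ :=
  ((x₂ p : ℝ) : ℂ) * (((starRingEnd ℂ) (kap R j) * wf ρ j p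
    - kap R j * (starRingEnd ℂ) (wf ρ j p)) / g2 ρ p)

noncomputable def cut (x₂ : C2 → ℝ) (f : C2 → ℂ) (p : C2) : ℂ := ((x₂ p : ℝ) : ℂ) * f p

section

variable {ρ : C2 → ℝ} (hρ : ContDiff ℝ ((⊤ : ℕ∞) : WithTop ℕ∞) ρ) {R : ℝ} (hR : R ≠ 0)
  {x₂ : C2 → ℝ}

include hρ

lemma bf_smooth (j : Fin 4) : ContDiff ℝ ((⊤ : ℕ∞) : WithTop ℕ∞) (bf ρ j) := by
  fin_cases j
  · exact rjb_smooth hρ 1
  · exact rjb_smooth hρ 1
  · exact rjb_smooth hρ 0
  · exact rjb_smooth hρ 0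

lemma rb_smooth (j : Fin 4) : ContDiff ℝ ((⊤ : ℕ∞) : WithTop ℕ∞) (rb ρ j) := by
  fin_cases j
  · exact rj_smooth hρ 1
  · exact rj_smooth hρ 1
  · exact rj_smooth hρ 0
  · exact rj_smooth hρ 0

lemma wf_smooth (j : Fin 4) : ContDiff ℝ ((⊤ : ℕ∞) : WithTop ℕ∞) (wf ρ j) := by
  fin_cases j
  · exact rjb_smooth hρ 0
  · exact rjb_smooth hρ 0
  · exact (rjb_smooth hρ 1).neg
  · exact (rjb_smooth hρ 1).neg

lemma bf_conj (j : Fin 4) (p : C2) : bf ρ j p = (starRingEnd ℂ) (rb ρ j p) := by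
  fin_cases j
  · exact rjb_eq hρ 1 p
  · exact rjb_eq hρ 1 p
  · exact rjb_eq hρ 0 p
  · exact rjb_eq hρ 0 p

lemma rb_conj (j : Fin 4) (p : C2) : (starRingEnd ℂ) (bf ρ j p) = rb ρ j p := by
  rw [bf_conj hρ, Complex.conj_conj]

lemma g2_smooth : ContDiff ℝ ((⊤ : ℕ∞) : WithTop ℕ∞) (g2 ρ) :=
  ((rj_smooth hρ 0).mul (rjb_smooth hρ 0)).add ((rj_smooth hρ 1).mul (rjb_smooth hρ 1))

lemma rjk_smooth (j k : Fin 2) : ContDiff ℝ ((⊤ : ℕ∞) : WithTop ℕ∞) (rjk ρ j k) :=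
  dzb_smooth (rj_smooth hρ j) k

lemma gam_smooth : ContDiff ℝ ((⊤ : ℕ∞) : WithTop ℕ∞) (gam ρ) := by
  have : gam ρ = fun p =>
    (rjk ρ 0 0 p * rj ρ 1 p - rjk ρ 1 0 p * rj ρ 0 p) * rjb ρ 1 p
      - (rjk ρ 0 1 p * rj ρ 1 p - rjk ρ 1 1 p * rj ρ 0 p) * rjb ρ 0 p := by
    funext p; exact gam_eq p
  rw [this]
  have a := rjk_smooth hρ
  have b := rj_smooth hρ
  have c := rjb_smooth hρ
  exact ((((a 0 0).mul (b 1)).sub ((a 1 0).mul (b 0))).mul (c 1)).sub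
    ((((a 0 1).mul (b 1)).sub ((a 1 1).mul (b 0))).mul (c 0))

lemma Lbar_rj_smooth (j : Fin 2) : ContDiff ℝ ((⊤ : ℕ∞) : WithTop ℕ∞) (Lbar ρ (rj ρ j)) := by
  have : Lbar ρ (rj ρ j) = fun p => rjb ρ 1 p * rjk ρ j 0 p - rjb ρ 0 p * rjk ρ j 1 p := by
    funext p; exact Lbar_rj j p
  rw [this]
  exact ((rjb_smooth hρ 1).mul (rjk_smooth hρ j 0)).sub ((rjb_smooth hρ 0).mul (rjk_smooth hρ j 1))

lemma alp_smoothOn : ContDiffOn ℝ ((⊤ : ℕ∞) : WithTop ℕ∞) (alp ρ) {p | g2 ρ p ≠ 0} := by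
  have : alp ρ = fun p =>
    (rjb ρ 1 p * Lbar ρ (rj ρ 1) p + rjb ρ 0 p * Lbar ρ (rj ρ 0) p) / g2 ρ p := by
    funext p; exact alp_eq p
  rw [this]
  have h1 : ContDiff ℝ ((⊤ : ℕ∞) : WithTop ℕ∞)
      (fun p => rjb ρ 1 p * Lbar ρ (rj ρ 1) p + rjb ρ 0 p * Lbar ρ (rj ρ 0) p) :=
    ((rjb_smooth hρ 1).mul (Lbar_rj_smooth hρ 1)).add
      ((rjb_smooth hρ 0).mul (Lbar_rj_smooth hρ 0))
  exact div_on h1.contDiffOn (g2_smooth hρ).contDiffOn (fun p hp => hp)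

lemma g2_re (p : C2) : g2 ρ p = (((g2 ρ p).re : ℝ) : ℂ) := by
  rw [g2_real hρ]
  rw [Complex.ofReal_re]

include hR

omit hρ in
lemma vC_A (f : C2 → ℂ) (p : C2) :
    vC R (fA' ρ R x₂) f p = ((x₂ p : ℝ) : ℂ) * Lbar ρ f p := by
  have hR' : (R : ℂ) ≠ 0 := by exact_mod_cast hR
  unfold vC Lbar fA'
  simp only [Fin.sum_univ_four, dzb_eq, smul_eq_mul]
  simp only [kap, bf, dir, Matrix.cons_val_zero, Matrix.cons_val_one, Matrix.cons_val]
  field_simp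
  ring

lemma vC_Ac (f : C2 → ℂ) (p : C2) :
    vC R (fAc ρ R x₂) f p = ((x₂ p : ℝ) : ℂ) * Lhol ρ f p := by
  have hR' : (R : ℂ) ≠ 0 := by exact_mod_cast hR
  have h2 : (starRingEnd ℂ) 2 = 2 := Complex.conj_ofNat 2
  unfold vC Lhol fAc fA'
  simp only [Fin.sum_univ_four, dz_eq, smul_eq_mul, map_mul, rb_conj hρ, Complex.conj_ofReal]
  simp only [kap, rb, dir, Matrix.cons_val_zero, Matrix.cons_val_one, Matrix.cons_val,
    map_div₀, map_mul, map_neg, map_one, Complex.conj_I, Complex.conj_ofReal, h2]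
  field_simp
  ring

/-- where x₂ = 1 locally the commutator identity holds -/
lemma comm_local {p : C2} (hg : g2 ρ p ≠ 0) (hev : ∀ᶠ q in 𝓝 p, x₂ q = 1) (j : Fin 4) :
    vC R (fA' ρ R x₂) (fAc ρ R x₂ j) p - vC R (fAc ρ R x₂) (fA' ρ R x₂ j) p =
      - (cut x₂ (gam ρ) p * fT ρ R x₂ j p) + cut x₂ (alp ρ) p * fAc ρ R x₂ j p
        - (starRingEnd ℂ) (cut x₂ (alp ρ) p) * fA' ρ R x₂ j p := by
  have hp : x₂ p = 1 := hev.self_of_nhds
  rw [vC_A hR, vC_Ac hρ hR]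
  have e1 : fAc ρ R x₂ j =ᶠ[𝓝 p] fun q => (starRingEnd ℂ) (kap R j) * rb ρ j q := by
    filter_upwards [hev] with q hq
    unfold fAc fA'
    rw [hq, map_mul, map_mul, rb_conj hρ]
    simp
  have e2 : fA' ρ R x₂ j =ᶠ[𝓝 p] fun q => kap R j * bf ρ j q := by
    filter_upwards [hev] with q hq
    unfold fA'
    rw [hq]
    simp
  rw [Lbar_congr e1, Lhol_congr e2, Lbar_cmul _ (smooth_diff (rb_smooth hρ j) p),
    Lhol_cmul _ (smooth_diff (bf_smooth hρ j) p)]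
  have e3 : Lhol ρ (bf ρ j) p = (starRingEnd ℂ) (Lbar ρ (rb ρ j) p) := by
    have : bf ρ j = fun q => (starRingEnd ℂ) (rb ρ j q) := by funext q; exact bf_conj hρ j q
    rw [this]
    exact Lhol_conj hρ (smooth_diff (rb_smooth hρ j) p)
  rw [e3]
  have v1 := e1.self_of_nhds
  have v2 := e2.self_of_nhds
  rw [v1, v2]
  unfold cut fT
  rw [hp]
  simp only [Complex.ofReal_one, one_mul]
  have h1 := id_one p hg
  have h0 := id_zero p hg
  have h0' : Lbar ρ (rj ρ 0) p = gam ρ p * (rjb ρ 1 p / g2 ρ p) + alp ρ p * rj ρ 0 p := by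
    linear_combination - h0
  have hgc := g2_conj hρ p
  have hgam := gam_conj hρ p
  have cb := conj_rjb hρ
  fin_cases j
  · simp only [rb, bf, wf, Fin.mk_zero, Fin.zero_eta, Fin.isValue, Matrix.cons_val_zero]
    rw [h1]
    simp only [map_add, map_mul, map_neg, map_div₀, hgc, hgam, cb]
    rw [← rjb_eq hρ 1 p]
    field_simp
    ring
  · simp only [rb, bf, wf, Fin.mk_one, Fin.isValue, Matrix.cons_val_one, Matrix.cons_val_zero]
    rw [h1]
    simp only [map_add, map_mul, map_neg, map_div₀, hgc, hgam, cb]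
    rw [← rjb_eq hρ 1 p]
    field_simp
    ring
  · simp only [rb, bf, wf, Fin.reduceFinMk, Fin.isValue, Matrix.cons_val]
    rw [h0']
    simp only [map_add, map_mul, map_neg, map_div₀, hgc, hgam, cb]
    rw [← rjb_eq hρ 0 p]
    field_simp
    ring
  · simp only [rb, bf, wf, Fin.reduceFinMk, Fin.isValue, Matrix.cons_val]
    rw [h0']
    simp only [map_add, map_mul, map_neg, map_div₀, hgc, hgam, cb]
    rw [← rjb_eq hρ 0 p]
    field_simp
    ring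

/-- where x₂ = 1 locally the positivity identity holds -/
lemma pos_local {p : C2} (hg : g2 ρ p ≠ 0) (hev : ∀ᶠ q in 𝓝 p, x₂ q = 1) :
    vC R (fA' ρ R x₂) (vC R (fAc ρ R x₂) (cut x₂ nsq)) p
      + vC R (fAc ρ R x₂) (vC R (fA' ρ R x₂) (cut x₂ nsq)) p
      - cut x₂ (alp ρ) p * vC R (fAc ρ R x₂) (cut x₂ nsq) p
      - (starRingEnd ℂ) (cut x₂ (alp ρ) p) * vC R (fA' ρ R x₂) (cut x₂ nsq) p =
    2 * g2 ρ p - gam ρ p * ((rjb ρ 0 p * (starRingEnd ℂ) (p 0)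
            + rjb ρ 1 p * (starRingEnd ℂ) (p 1) + rj ρ 0 p * p 0 + rj ρ 1 p * p 1) / g2 ρ p) := by
  have hp : x₂ p = 1 := hev.self_of_nhds
  have hee := hev.eventually_nhds
  have hcut : ∀ q : C2, (∀ᶠ r in 𝓝 q, x₂ r = 1) → cut x₂ nsq =ᶠ[𝓝 q] nsq := by
    intro q hq
    filter_upwards [hq] with r hr
    unfold cut
    rw [hr]
    simp
  have e1 : vC R (fAc ρ R x₂) (cut x₂ nsq) =ᶠ[𝓝 p] Lhol ρ nsq := by
    filter_upwards [hee] with q hq
    rw [vC_Ac hρ hR, hq.self_of_nhds, Lhol_congr (hcut q hq)]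
    simp
  have e2 : vC R (fA' ρ R x₂) (cut x₂ nsq) =ᶠ[𝓝 p] Lbar ρ nsq := by
    filter_upwards [hee] with q hq
    rw [vC_A hR, hq.self_of_nhds, Lbar_congr (hcut q hq)]
    simp
  rw [vC_A hR (vC R (fAc ρ R x₂) (cut x₂ nsq)) p, vC_Ac hρ hR (vC R (fA' ρ R x₂) (cut x₂ nsq)) p]
  rw [Lbar_congr e1, Lhol_congr e2, e1.self_of_nhds, e2.self_of_nhds, hp]
  have hca : cut x₂ (alp ρ) p = alp ρ p := by
    unfold cut; rw [hp]; simp
  rw [hca]
  have h4 := ((b4 ρ hρ p).2.2.2.2 hg).2.2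
  rw [← h4]
  push_cast
  ring

end

/-- B5 -/
theorem b5 (_ : B4Stmt) : B5Stmt := by
  intro Ω ρ h N U₀ hU₀ hS M hM
  have hρ := h.smooth
  have hWo : IsOpen (U₀ ∩ {p | g2 ρ p ≠ 0}) :=
    hU₀.inter (isOpen_ne_fun (g2_smooth hρ).continuous continuous_const)
  have hSW : {p | ρ p = 0} ⊆ U₀ ∩ {p | g2 ρ p ≠ 0} := fun p hp =>
    ⟨hS hp, (g2_ne_iff hρ p).mpr (h.grad p hp)⟩
  obtain ⟨x₁, x₂, K, hKc, hKW, hx1s, hx2s, hx1z, hx2z, hx2i, hx1S, hx12⟩ := exists_cut h hWo hSW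
  obtain ⟨R, hRpos, hbox⟩ := exists_box hKc
  have hR : R ≠ 0 := hRpos.ne'
  have hη : (1 / 4 : ℝ) < 1 / 2 := by norm_num
  have hout : ∀ p, (∃ i, (1 / 4 : ℝ) < |xc R p i|) → p ∉ K := by
    rintro p ⟨i, hi⟩ hp
    have := hbox p hp i
    linarith
  have hcutG : ∀ f : C2 → ℂ, ContDiffOn ℝ ((⊤ : ℕ∞) : WithTop ℕ∞) f (U₀ ∩ {p | g2 ρ p ≠ 0}) →
      CG R (1 / 4) (cut x₂ f) := by
    intro f hf
    refine ⟨cut_smooth hKc.isClosed hWo hKW hx2s hx2z hf, 0, fun p hp => ?_⟩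
    unfold cut
    rw [hx2z p (hout p hp)]
    simp
  have hcutS : ∀ f : C2 → ℂ, ContDiff ℝ ((⊤ : ℕ∞) : WithTop ℕ∞) f → CG R (1 / 4) (cut x₂ f) :=
    fun f hf => hcutG f hf.contDiffOn
  have hx1G : CG R (1 / 4) (fun p => ((x₁ p : ℝ) : ℂ)) := by
    refine ⟨(Complex.ofRealCLM.contDiff (n := ((⊤ : ℕ∞) : WithTop ℕ∞))).comp hx1s, 0, fun p hp => ?_⟩
    rw [hx1z p (hout p hp)]
    simp
  have gA : ∀ j, CG R (1 / 4) (fA' ρ R x₂ j) := fun j =>
    hcutS _ (contDiff_const.mul (bf_smooth hρ j))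
  have gAc : ∀ j, CG R (1 / 4) (fAc ρ R x₂ j) := fun j => (gA j).conj
  have gT : ∀ j, CG R (1 / 4) (fT ρ R x₂ j) := by
    intro j
    apply hcutG
    have h1 : ContDiff ℝ ((⊤ : ℕ∞) : WithTop ℕ∞) (fun p => (starRingEnd ℂ) (kap R j) * wf ρ j p
        - kap R j * (starRingEnd ℂ) (wf ρ j p)) := by
      apply (contDiff_const.mul (wf_smooth hρ j)).sub
      apply contDiff_const.mul
      exact (Complex.conjCLE : ℂ →L[ℝ] ℂ).contDiff.comp (wf_smooth hρ j)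
    exact div_on h1.contDiffOn (g2_smooth hρ).contDiffOn (fun p hp => hp.2)
  have gG : CG R (1 / 4) (cut x₂ (gam ρ)) := hcutS _ (gam_smooth hρ)
  have gal : CG R (1 / 4) (cut x₂ (alp ρ)) :=
    hcutG _ ((alp_smoothOn hρ).mono (fun p hp => hp.2))
  have hnsq : ContDiff ℝ ((⊤ : ℕ∞) : WithTop ℕ∞) nsq := by
    rw [nsq_fun]
    have hc : ∀ i : Fin 2, ContDiff ℝ ((⊤ : ℕ∞) : WithTop ℕ∞) (fun q : C2 => q i) := fun i =>
      (ContinuousLinearMap.proj (R := ℝ) (φ := fun _ : Fin 2 => ℂ) i).contDiff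
    have hcc : ∀ i : Fin 2, ContDiff ℝ ((⊤ : ℕ∞) : WithTop ℕ∞)
        (fun q : C2 => (starRingEnd ℂ) (q i)) := fun i =>
      (Complex.conjCLE : ℂ →L[ℝ] ℂ).contDiff.comp (hc i)
    exact ((hc 0).mul (hcc 0)).add ((hc 1).mul (hcc 1))
  have gphi : CG R (1 / 4) (cut x₂ nsq) := hcutS _ hnsq
  -- the constant c0
  have hgpos : ∀ p ∈ K, 0 < (g2 ρ p).re := by
    intro p hp
    have hne : g2 ρ p ≠ 0 := (hKW hp).2
    have e := g2_real hρ p
    rw [e] at hne ⊢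
    rw [Complex.ofReal_re]
    have hne' : Complex.normSq (rj ρ 0 p) + Complex.normSq (rj ρ 1 p) ≠ 0 := by
      exact_mod_cast hne
    have h1 := Complex.normSq_nonneg (rj ρ 0 p)
    have h2 := Complex.normSq_nonneg (rj ρ 1 p)
    exact lt_of_le_of_ne (by linarith) (Ne.symm hne')
  have hgcont : Continuous fun p => (g2 ρ p).re :=
    Complex.continuous_re.comp (g2_smooth hρ).continuous
  obtain ⟨c, hc0, hc⟩ := hKc.exists_forall_le' hgcont.continuousOn hgpos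
  have hm0 : 0 < min c (1 / 2) := lt_min hc0 (by norm_num)
  set c0 : ℝ := min c (1 / 2) / 2 with hc0def
  have hc0pos : 0 < c0 := by positivity
  have h2c0c : 2 * c0 ≤ c := by
    have := min_le_left c (1 / 2 : ℝ)
    linarith
  have h2c0h : 2 * c0 ≤ 1 / 2 := by
    have := min_le_right c (1 / 2 : ℝ)
    linarith
  set P : C2 → ℝ := fun p => (1 - x₂ p) + x₂ p * (2 * (g2 ρ p).re) - 2 * c0 with hPdef
  have hP : ∀ p, 0 < P p := by
    intro p
    simp only [hPdef]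
    have hi := hx2i p
    by_cases hp : p ∈ K
    · have := hc p hp
      have h1 : x₂ p * (2 * c) ≤ x₂ p * (2 * (g2 ρ p).re) := by
        apply mul_le_mul_of_nonneg_left _ hi.1
        linarith
      nlinarith [hi.1, hi.2]
    · rw [hx2z p hp]
      linarith
  have hPs : ContDiff ℝ ((⊤ : ℕ∞) : WithTop ℕ∞) P := by
    have hre : ContDiff ℝ ((⊤ : ℕ∞) : WithTop ℕ∞) (fun p => (g2 ρ p).re) :=
      Complex.reCLM.contDiff.comp (g2_smooth hρ)
    exact ((contDiff_const.sub hx2s).add (hx2s.mul (contDiff_const.mul hre))).sub contDiff_const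
  set bet : C2 → ℂ := fun p => ((Real.sqrt (P p) : ℝ) : ℂ) with hbetdef
  have gbet : CG R (1 / 4) bet := by
    refine ⟨?_, ((Real.sqrt (1 - 2 * c0) : ℝ) : ℂ), fun p hp => ?_⟩
    · exact (Complex.ofRealCLM.contDiff (n := ((⊤ : ℕ∞) : WithTop ℕ∞))).comp
        (hPs.sqrt (fun p => (hP p).ne'))
    · simp only [hbetdef, hPdef]
      rw [hx2z p (hout p hp)]
      simp
  have hbb : ∀ p, bet p * (starRingEnd ℂ) (bet p) = ((P p : ℝ) : ℂ) := by
    intro p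
    simp only [hbetdef]
    rw [Complex.conj_ofReal, ← Complex.ofReal_mul, Real.mul_self_sqrt (hP p).le]
  set pp1 : C2 → ℂ := cut x₂ (fun p => - ((rjb ρ 0 p * (starRingEnd ℂ) (p 0)
            + rjb ρ 1 p * (starRingEnd ℂ) (p 1) + rj ρ 0 p * p 0 + rj ρ 1 p * p 1) / g2 ρ p))
    with hpp1
  have gpp1 : CG R (1 / 4) pp1 := by
    apply hcutG
    have hc : ∀ i : Fin 2, ContDiff ℝ ((⊤ : ℕ∞) : WithTop ℕ∞) (fun q : C2 => q i) := fun i =>
      (ContinuousLinearMap.proj (R := ℝ) (φ := fun _ : Fin 2 => ℂ) i).contDiff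
    have hcc : ∀ i : Fin 2, ContDiff ℝ ((⊤ : ℕ∞) : WithTop ℕ∞)
        (fun q : C2 => (starRingEnd ℂ) (q i)) := fun i =>
      (Complex.conjCLE : ℂ →L[ℝ] ℂ).contDiff.comp (hc i)
    have h1 : ContDiff ℝ ((⊤ : ℕ∞) : WithTop ℕ∞) (fun p : C2 => rjb ρ 0 p * (starRingEnd ℂ) (p 0)
            + rjb ρ 1 p * (starRingEnd ℂ) (p 1) + rj ρ 0 p * p 0 + rj ρ 1 p * p 1) :=
      ((((rjb_smooth hρ 0).mul (hcc 0)).add ((rjb_smooth hρ 1).mul (hcc 1))).add
        ((rj_smooth hρ 0).mul (hc 0))).add ((rj_smooth hρ 1).mul (hc 1))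
    exact (div_on h1.contDiffOn (g2_smooth hρ).contDiffOn (fun p hp => hp.2)).neg
  -- the error terms
  set E : Fin 4 → C2 → ℂ := fun j p =>
    vC R (fA' ρ R x₂) (fAc ρ R x₂ j) p - vC R (fAc ρ R x₂) (fA' ρ R x₂ j) p
      + cut x₂ (gam ρ) p * fT ρ R x₂ j p - cut x₂ (alp ρ) p * fAc ρ R x₂ j p
      + (starRingEnd ℂ) (cut x₂ (alp ρ) p) * fA' ρ R x₂ j p with hEdef
  have gE : ∀ j, CG R (1 / 4) (E j) := by
    intro j
    exact ((((CG.vC gA (gAc j)).sub (CG.vC gAc (gA j))).add (gG.mul (gT j))).sub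
      (gal.mul (gAc j))).add (gal.conj.mul (gA j))
  set pp2 : C2 → ℂ := fun p =>
    vC R (fA' ρ R x₂) (vC R (fAc ρ R x₂) (cut x₂ nsq)) p
      + vC R (fAc ρ R x₂) (vC R (fA' ρ R x₂) (cut x₂ nsq)) p
      - cut x₂ (alp ρ) p * vC R (fAc ρ R x₂) (cut x₂ nsq) p
      - (starRingEnd ℂ) (cut x₂ (alp ρ) p) * vC R (fA' ρ R x₂) (cut x₂ nsq) p
      - 2 * ((c0 : ℝ) : ℂ) - bet p * (starRingEnd ℂ) (bet p) - cut x₂ (gam ρ) p * pp1 p with hpp2
  have gpp2 : CG R (1 / 4) pp2 := by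
    have g1 := CG.vC gA (CG.vC gAc gphi)
    have g2' := CG.vC gAc (CG.vC gA gphi)
    exact ((((((g1.add g2').sub (gal.mul (CG.vC gAc gphi))).sub
      (gal.conj.mul (CG.vC gA gphi))).sub (CG.cst _)).sub (gbet.mul gbet.conj)).sub
      (gG.mul gpp1))
  have hgK : ∀ p, x₁ p ≠ 0 → g2 ρ p ≠ 0 := by
    intro p hp
    have hpK : p ∈ K := by
      by_contra hc
      exact hp (hx1z p hc)
    exact (hKW hpK).2
  have hE0 : ∀ j p, ((1 : ℂ) - ((x₁ p : ℝ) : ℂ)) * E j p = E j p := by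
    intro j p
    by_cases hp : x₁ p = 0
    · rw [hp]; simp
    · have h0 : E j p = 0 := by
        have := comm_local hρ hR (hgK p hp) (hx12 p hp) j
        simp only [hEdef]
        rw [this]
        ring
      rw [h0]; ring
  have hp20 : ∀ p, ((1 : ℂ) - ((x₁ p : ℝ) : ℂ)) * pp2 p = pp2 p := by
    intro p
    by_cases hp : x₁ p = 0
    · rw [hp]; simp
    · have h0 : pp2 p = 0 := by
        have h1 := pos_local hρ hR (hgK p hp) (hx12 p hp)
        have hx2 : x₂ p = 1 := (hx12 p hp).self_of_nhds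
        simp only [hpp2]
        rw [h1, hbb p]
        simp only [hPdef, hpp1, cut]
        rw [hx2]
        have hg := g2_re hρ p
        have hgn := hgK p hp
        push_cast
        rw [← hg]
        ring
      rw [h0]; ring
  have gX : CG R (1 / 4) (fun p => (1 : ℂ) - ((x₁ p : ℝ) : ℂ)) := (CG.cst 1).sub hx1G
  -- M
  have gM : ∀ i j, CG R (1 / 4) (cut x₂ (M i j)) := fun i j =>
    hcutG _ ((hM i j).mono (fun p hp => hp.1))
  let D : FData N :=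
    { a := fun j => per R (fA' ρ R x₂ j)
      τ := fun j => per R (fT ρ R x₂ j)
      e := fun j => per R (E j)
      γ := per R (cut x₂ (gam ρ))
      φ := per R (cut x₂ nsq)
      χ := per R (fun p => (1 : ℂ) - ((x₁ p : ℝ) : ℂ))
      α := per R (cut x₂ (alp ρ))
      π1 := per R pp1
      π2 := per R pp2
      β := per R bet
      M := fun i j => per R (cut x₂ (M i j))
      c0 := c0
      hc0 := hc0pos
      ra := fun j => per_perSm hR hη (gA j)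
      rτ := fun j => per_perSm hR hη (gT j)
      re := fun j => per_perSm hR hη (gE j)
      rγ := per_perSm hR hη gG
      rφ := per_perSm hR hη gphi
      rχ := per_perSm hR hη gX
      rα := per_perSm hR hη gal
      rπ1 := per_perSm hR hη gpp1
      rπ2 := per_perSm hR hη gpp2
      rβ := per_perSm hR hη gbet
      rM := fun i j => per_perSm hR hη (gM i j)
      sγ := by
        intro x
        show (starRingEnd ℂ) (cut x₂ (gam ρ) (sg R x)) = cut x₂ (gam ρ) (sg R x)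
        unfold cut
        rw [map_mul, gam_conj hρ, Complex.conj_ofReal]
      sφ := by
        intro x
        show (starRingEnd ℂ) (cut x₂ nsq (sg R x)) = cut x₂ nsq (sg R x)
        unfold cut nsq
        rw [map_mul, Complex.conj_ofReal, Complex.conj_ofReal]
      sχ := by
        intro x
        show (starRingEnd ℂ) ((1 : ℂ) - ((x₁ (sg R x) : ℝ) : ℂ)) = _
        rw [map_sub, map_one, Complex.conj_ofReal]
        rfl
      comm := by
        intro j x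
        have e1 : vff (fun j => per R (fA' ρ R x₂ j)) (cj (per R (fA' ρ R x₂ j))) x
            = vC R (fA' ρ R x₂) (fAc ρ R x₂ j) (sg R x) :=
          congrFun (vff_per hR hη (fA' ρ R x₂) (gAc j)) x
        have e2 : vff (fun i => cj (per R (fA' ρ R x₂ i))) (per R (fA' ρ R x₂ j)) x
            = vC R (fAc ρ R x₂) (fA' ρ R x₂ j) (sg R x) :=
          congrFun (vff_per hR hη (fAc ρ R x₂) (gA j)) x
        rw [e1, e2]
        have e3 := hE0 j (sg R x)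
        show _ = - (cut x₂ (gam ρ) (sg R x) * fT ρ R x₂ j (sg R x))
          + cut x₂ (alp ρ) (sg R x) * fAc ρ R x₂ j (sg R x)
          - (starRingEnd ℂ) (cut x₂ (alp ρ) (sg R x)) * fA' ρ R x₂ j (sg R x)
          + ((1 : ℂ) - ((x₁ (sg R x) : ℝ) : ℂ)) * E j (sg R x)
        rw [e3]
        simp only [hEdef]
        ring
      pos := by
        intro x
        have e1 : vff (fun i => cj (per R (fA' ρ R x₂ i))) (per R (cut x₂ nsq))
            = per R (vC R (fAc ρ R x₂) (cut x₂ nsq)) := vff_per hR hη (fAc ρ R x₂) gphi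
        have e2 : vff (fun i => per R (fA' ρ R x₂ i)) (per R (cut x₂ nsq))
            = per R (vC R (fA' ρ R x₂) (cut x₂ nsq)) := vff_per hR hη (fA' ρ R x₂) gphi
        rw [e1, e2]
        have e3 : vff (fun j => per R (fA' ρ R x₂ j)) (per R (vC R (fAc ρ R x₂) (cut x₂ nsq))) x
            = vC R (fA' ρ R x₂) (vC R (fAc ρ R x₂) (cut x₂ nsq)) (sg R x) :=
          congrFun (vff_per hR hη (fA' ρ R x₂) (CG.vC gAc gphi)) x
        have e4 : vff (fun i => cj (per R (fA' ρ R x₂ i)))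
            (per R (vC R (fA' ρ R x₂) (cut x₂ nsq))) x
            = vC R (fAc ρ R x₂) (vC R (fA' ρ R x₂) (cut x₂ nsq)) (sg R x) :=
          congrFun (vff_per hR hη (fAc ρ R x₂) (CG.vC gA gphi)) x
        rw [e3, e4]
        have e5 := hp20 (sg R x)
        show vC R (fA' ρ R x₂) (vC R (fAc ρ R x₂) (cut x₂ nsq)) (sg R x)
          + vC R (fAc ρ R x₂) (vC R (fA' ρ R x₂) (cut x₂ nsq)) (sg R x)
          - cut x₂ (alp ρ) (sg R x) * vC R (fAc ρ R x₂) (cut x₂ nsq) (sg R x)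
          - (starRingEnd ℂ) (cut x₂ (alp ρ) (sg R x)) * vC R (fA' ρ R x₂) (cut x₂ nsq) (sg R x)
          = 2 * ((c0 : ℝ) : ℂ) + bet (sg R x) * (starRingEnd ℂ) (bet (sg R x))
            + cut x₂ (gam ρ) (sg R x) * pp1 (sg R x)
            + ((1 : ℂ) - ((x₁ (sg R x) : ℝ) : ℂ)) * pp2 (sg R x)
        rw [e5]
        simp only [hpp2]
        ring }
  have hUK : ∀ p ∈ interior {p | x₁ p = 1}, x₁ p = 1 ∧ x₂ p = 1 ∧ p ∈ K := by
    intro p hp
    have h1 : x₁ p = 1 := interior_subset (s := {p | x₁ p = 1}) hp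
    have hne : x₁ p ≠ 0 := by rw [h1]; norm_num
    refine ⟨h1, (hx12 p hne).self_of_nhds, ?_⟩
    by_contra hc
    exact hne (hx1z p hc)
  have hbx : ∀ p ∈ interior {p | x₁ p = 1}, ∀ i, |xc R p i| < 1 / 2 := by
    intro p hp i
    have := hbox p (hUK p hp).2.2 i
    linarith
  refine ⟨R, D, interior {p | x₁ p = 1}, hRpos, isOpen_interior, ?_, ?_, hbx, ?_, ?_, ?_⟩
  · exact subset_interior_iff_mem_nhdsSet.mpr hx1S
  · intro p hp
    exact (hKW (hUK p hp).2.2).1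
  · intro p hp
    obtain ⟨h1, h2, h3⟩ := hUK p hp
    have hsg := sg_xc hR (hbx p hp)
    refine ⟨?_, ?_, ?_, ?_⟩
    · show cut x₂ (gam ρ) (sg R (xc R p)) = _
      rw [hsg]
      unfold cut
      rw [h2]; simp
    · show (1 : ℂ) - ((x₁ (sg R (xc R p)) : ℝ) : ℂ) = 0
      rw [hsg, h1]; simp
    · show cut x₂ nsq (sg R (xc R p)) = _
      rw [hsg]
      unfold cut nsq
      rw [h2]; simp
    · intro i j
      show cut x₂ (M i j) (sg R (xc R p)) = _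
      rw [hsg]
      unfold cut
      rw [h2]; simp
  · intro u p hp hu
    obtain ⟨h1, h2, h3⟩ := hUK p hp
    have hsg := sg_xc hR (hbx p hp)
    have hR' : (R : ℂ) ≠ 0 := by exact_mod_cast hR
    have hD : ∀ j : Fin 4, Dd (dir j) (fun q => u (xc R q)) p = ((R⁻¹ : ℝ) : ℂ) * pd j u (xc R p) := by
      intro j
      have hx : HasFDerivAt (xc R) (xcL R) p := by
        have : xc R = fun q => xcL R q := by funext q; rw [xcL_eq]
        rw [this]
        exact (xcL R).hasFDerivAt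
      have hcomp : HasFDerivAt (fun q => u (xc R q)) ((fderiv ℝ u (xc R p)).comp (xcL R)) p :=
        hu.hasFDerivAt.comp p hx
      unfold Dd pd
      rw [hcomp.fderiv, ContinuousLinearMap.comp_apply, xcL_dir, map_smul, Complex.real_smul]
    have d0 := hD 0
    have d1 := hD 1
    have d2 := hD 2
    have d3 := hD 3
    simp only [dir, Matrix.cons_val_zero, Matrix.cons_val_one, Matrix.cons_val] at d0 d1 d2 d3
    show rjb ρ 1 p • dzb 0 (fun q => u (xc R q)) p - rjb ρ 0 p • dzb 1 (fun q => u (xc R q)) p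
      = ∑ j, fA' ρ R x₂ j (sg R (xc R p)) * pd j u (xc R p)
    rw [hsg, Fin.sum_univ_four, dzb_eq, dzb_eq, d0, d1, d2, d3]
    unfold fA'
    rw [h2]
    simp only [kap, bf, Matrix.cons_val_zero, Matrix.cons_val_one, Matrix.cons_val, smul_eq_mul]
    push_cast
    field_simp
    ring
  · intro b hb
    refine ⟨per R (cut x₂ b), per_perSm hR hη (hcutG b (hb.mono (fun p hp => hp.1))), ?_⟩
    intro p hp
    obtain ⟨h1, h2, h3⟩ := hUK p hp
    have hsg := sg_xc hR (hbx p hp)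
    show cut x₂ b (sg R (xc R p)) = b p
    rw [hsg]
    unfold cut
    rw [h2]; simp

end Pool.Agent.AK.H70
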