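import Pool.Agent.Helper60_AK.StmtF

set_option autoImplicit false

/-!
Squad AK, module F6: dbar F_eps is small.
-/

namespace Pool.Agent.AK.H70

open Complex Set Topology

lemma dec_expneg {g : ℂ → ℂ} (hg : Dec g) : Dec (fun y => exp (-y) * g y) := by
  refine ⟨?_, ?_⟩
  · have h1 : Differentiable ℂ (fun y : ℂ => exp (-y)) := by fun_prop
    exact h1.mul hg.1
  · intro N R
    obtain ⟨C, hC⟩ := hg.2 (N + 1) R
    refine ⟨C, fun z hz => ?_⟩
    have h := hC z hz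
    rw [norm_mul, Complex.norm_exp]
    have h1 : Real.exp ((-z).re) ≤ Real.exp |z.re| := by
      apply Real.exp_le_exp.mpr
      rw [Complex.neg_re]
      exact neg_le_abs _
    calc Real.exp ((-z).re) * ‖g z‖ ≤ Real.exp |z.re| * (C * Real.exp (-(((N + 1 : ℕ) : ℝ) * |z.re|))) :=
          mul_le_mul h1 h (norm_nonneg _) (Real.exp_pos _).le
      _ = C * Real.exp (-((N : ℝ) * |z.re|)) := by
          have e : Real.exp |z.re| * Real.exp (-(((N + 1 : ℕ) : ℝ) * |z.re|))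
              = Real.exp (-((N : ℝ) * |z.re|)) := by
            rw [← Real.exp_add]
            congr 1
            push_cast
            ring
          rw [← e]
          ring

/-- bounds of the form C * sqrt(eps)^J on the collar -/
def SmB (ρ : C2 → ℝ) (V : Set C2) (t0 : ℝ) (J : ℕ) (g : ℝ → C2 → ℝ) : Prop :=
  ∃ C : ℝ, 0 ≤ C ∧ ∀ ε : ℝ, 0 < ε → ε < t0 → ∀ p ∈ Veps ρ V ε, g ε p ≤ C * Real.sqrt ε ^ J

section

variable {ρ : C2 → ℝ} {V : Set C2} {t0 : ℝ} {J : ℕ}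

lemma SmB.mono {g g' : ℝ → C2 → ℝ} (h : SmB ρ V t0 J g')
    (hle : ∀ ε : ℝ, 0 < ε → ε < t0 → ∀ p ∈ Veps ρ V ε, g ε p ≤ g' ε p) : SmB ρ V t0 J g := by
  obtain ⟨C, hC0, hC⟩ := h
  exact ⟨C, hC0, fun ε h1 h2 p hp => le_trans (hle ε h1 h2 p hp) (hC ε h1 h2 p hp)⟩

lemma SmB.add {g g' : ℝ → C2 → ℝ} (h : SmB ρ V t0 J g) (h' : SmB ρ V t0 J g') :
    SmB ρ V t0 J (fun ε p => g ε p + g' ε p) := by
  obtain ⟨C, hC0, hC⟩ := h
  obtain ⟨D, hD0, hD⟩ := h'
  refine ⟨C + D, by positivity, fun ε h1 h2 p hp => ?_⟩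
  have a := hC ε h1 h2 p hp
  have b := hD ε h1 h2 p hp
  calc g ε p + g' ε p ≤ C * Real.sqrt ε ^ J + D * Real.sqrt ε ^ J := add_le_add a b
    _ = (C + D) * Real.sqrt ε ^ J := by ring

lemma SmB.sum {ι : Type*} (s : Finset ι) (g : ι → ℝ → C2 → ℝ)
    (h : ∀ i ∈ s, SmB ρ V t0 J (g i)) : SmB ρ V t0 J (fun ε p => ∑ i ∈ s, g i ε p) := by
  classical
  induction s using Finset.induction_on with
  | empty =>
    refine ⟨0, le_rfl, fun ε _ _ p _ => ?_⟩
    simp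
  | insert a s ha ih =>
    have h1 := h a (Finset.mem_insert_self a s)
    have h2 := ih (fun i hi => h i (Finset.mem_insert_of_mem hi))
    apply (h1.add h2).mono
    intro ε _ _ p _
    rw [Finset.sum_insert ha]

lemma SmB.bmul {g : ℝ → C2 → ℝ} {b : C2 → ℝ} (h : SmB ρ V t0 J g) {B : ℝ} (hB : 0 ≤ B)
    (hb : ∀ p ∈ V, 0 ≤ b p ∧ b p ≤ B) : SmB ρ V t0 J (fun ε p => b p * g ε p) := by
  obtain ⟨C, hC0, hC⟩ := h
  refine ⟨B * C, by positivity, fun ε h1 h2 p hp => ?_⟩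
  have a := hC ε h1 h2 p hp
  have hbp := hb p hp.1
  have hpos : 0 ≤ C * Real.sqrt ε ^ J := by positivity
  calc b p * g ε p ≤ b p * (C * Real.sqrt ε ^ J) := mul_le_mul_of_nonneg_left a hbp.1
    _ ≤ B * (C * Real.sqrt ε ^ J) := mul_le_mul_of_nonneg_right hbp.2 hpos
    _ = B * C * Real.sqrt ε ^ J := by ring

end

lemma bdd_on {V : Set C2} (hV : IsCompact (closure V)) {u : C2 → ℂ}
    (hu : ContinuousOn u (closure V)) : ∃ B : ℝ, 0 ≤ B ∧ ∀ p ∈ V, 0 ≤ ‖u p‖ ∧ ‖u p‖ ≤ B := by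
  obtain ⟨B, hB⟩ := (hV.image_of_continuousOn hu).isBounded.exists_norm_le
  refine ⟨|B|, abs_nonneg B, fun p hp => ⟨norm_nonneg _, ?_⟩⟩
  exact le_trans (hB _ (mem_image_of_mem u (subset_closure hp))) (le_abs_self B)

lemma cs_cont {V : Set C2} {s : ℕ} {u : C2 → ℂ} (h : CS V s u) : ContinuousOn u (closure V) := by
  obtain ⟨U, hU, hVU, hu⟩ := h
  exact hu.continuousOn.mono hVU

lemma cs_mono {V : Set C2} {s s' : ℕ} {u : C2 → ℂ} (h : CS V s u) (hs : s' ≤ s) : CS V s' u := by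
  obtain ⟨U, hU, hVU, hu⟩ := h
  exact ⟨U, hU, hVU, hu.of_le (by exact_mod_cast hs)⟩

lemma qf_cont {V : Set C2} {c : ℕ → C2 → ℂ} (hc : ∀ k, ContinuousOn (c k) (closure V)) (j : ℕ) :
    ∀ k, ContinuousOn (qf c j k) (closure V) := by
  induction j with
  | zero =>
    intro k
    show ContinuousOn (fun _ => if k = 0 then (1 : ℂ) else 0) (closure V)
    exact continuousOn_const
  | succ j ih =>
    intro k
    show ContinuousOn (fun p => (1 / ((j : ℂ) + 1)) * ∑ i ∈ Finset.Icc 1 k, c i p * qf c j (k - i) p)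
      (closure V)
    apply continuousOn_const.mul
    apply continuousOn_finsetSum
    intro i _
    exact (hc i).mul (ih (k - i))

/-- F6 -/
theorem f6 (h5 : F5Stmt) (h3 : E3Stmt) (he5 : E5Stmt) (h6 : L6Stmt) : F6Stmt := by
  intro Ω ρ f k0 B V t0 c2 hS J c K' K h hJ hT hK
  have hgeo := hS.geo
  have ht0 : t0 ≤ 1 := hgeo.t0le
  have hcpt := hgeo.cpt
  have hcc : ∀ k, ContinuousOn (c k) (closure V) := fun k => cs_cont (hT.sm k)
  have hρc : Continuous ρ := hS.dom.smooth.continuous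
  -- I_k bounded by sqrt eps ^ k
  have hI : ∀ (k : ℕ) (g : ℂ → ℂ), Dec g → ∃ C : ℝ, 0 ≤ C ∧ ∀ ε : ℝ, 0 < ε → ε < t0 →
      ∀ p ∈ Veps ρ V ε, ‖Ik ρ f (c 0) t0 ε k g p‖ ≤ C * Real.sqrt ε ^ k := by
    intro k g hg
    obtain ⟨C, hC⟩ := h6 Ω ρ f k0 B V t0 c2 hS (c 0) (hT.sm 0) k g hg
    refine ⟨|C|, abs_nonneg C, fun ε h1 h2 p hp => ?_⟩
    have := (hC ε h1 h2).2 0 (Nat.zero_le _) p hp
    rw [norm_iteratedFDeriv_zero] at this
    exact le_trans this (mul_le_mul_of_nonneg_right (le_abs_self C) (by positivity))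
  have hsq : ∀ ε : ℝ, 0 < ε → ε < t0 → 0 < Real.sqrt ε ∧ Real.sqrt ε ≤ 1 ∧ ε ≤ Real.sqrt ε := by
    intro ε h1 h2
    have hs : 0 < Real.sqrt ε := Real.sqrt_pos.mpr h1
    have hs1 : Real.sqrt ε ≤ 1 := by
      rw [Real.sqrt_le_one]
      linarith
    refine ⟨hs, hs1, ?_⟩
    have := Real.mul_self_sqrt h1.le
    nlinarith
  have hIbig : ∀ (k : ℕ) (g : ℂ → ℂ), J ≤ k → Dec g →
      SmB ρ V t0 J (fun ε p => ‖Ik ρ f (c 0) t0 ε k g p‖) := by
    intro k g hk hg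
    obtain ⟨C, hC0, hC⟩ := hI k g hg
    refine ⟨C, hC0, fun ε h1 h2 p hp => ?_⟩
    obtain ⟨s0, s1, _⟩ := hsq ε h1 h2
    exact le_trans (hC ε h1 h2 p hp)
      (mul_le_mul_of_nonneg_left (pow_le_pow_of_le_one s0.le s1 hk) hC0)
  have hbk : ∀ (k : ℕ) (g : ℂ → ℂ), Dec g →
      SmB ρ V t0 J (fun ε p => ‖bk ρ f (c 0) t0 ε k g p‖) := by
    intro k g hg
    obtain ⟨C, hC⟩ := h3 Ω ρ f k0 B V t0 c2 hS (c 0) (cs_mono (hT.sm 0) (Nat.zero_le _)) k g hg J
    refine ⟨|C|, abs_nonneg C, fun ε h1 h2 p hp => ?_⟩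
    obtain ⟨s0, s1, s2⟩ := hsq ε h1 h2
    calc ‖bk ρ f (c 0) t0 ε k g p‖ ≤ C * ε ^ J := hC ε h1 h2 p hp
      _ ≤ |C| * ε ^ J := mul_le_mul_of_nonneg_right (le_abs_self C) (by positivity)
      _ ≤ |C| * Real.sqrt ε ^ J :=
          mul_le_mul_of_nonneg_left (pow_le_pow_left₀ h1.le s2 J) (abs_nonneg C)
  -- the error of F5
  obtain ⟨C5, hC5⟩ := h5 Ω ρ f k0 B V t0 c2 hS J c K' K h hJ hT hK
  have hErr : SmB ρ V t0 J (fun ε p =>
      ((∑ k ∈ Finset.Icc J (J + 1), ∑ j ∈ Finset.Icc 1 (J + 2),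
                ‖Ik ρ f (c 0) t0 ε k (h k j) p‖)
          + ‖bk ρ f (c 0) t0 ε 0 K p‖
          + ∑ k ∈ Finset.range (J + 1), ∑ j ∈ Finset.Icc 1 J,
              (‖bk ρ f (c 0) t0 ε k (h k j) p‖
              + ‖bk ρ f (c 0) t0 ε (k - 1) (fun y => exp (-y) * h k j y) p‖))) := by
    refine SmB.add (SmB.add ?_ (hbk 0 K hK.decK)) ?_
    · apply SmB.sum (Finset.Icc J (J + 1)) (fun k ε p => ∑ j ∈ Finset.Icc 1 (J + 2),
                ‖Ik ρ f (c 0) t0 ε k (h k j) p‖)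
      intro k hk
      apply SmB.sum (Finset.Icc 1 (J + 2)) (fun j ε p => ‖Ik ρ f (c 0) t0 ε k (h k j) p‖)
      intro j _
      exact hIbig k (h k j) (Finset.mem_Icc.mp hk).1 (hK.dec k j)
    · apply SmB.sum (Finset.range (J + 1)) (fun k ε p => ∑ j ∈ Finset.Icc 1 J,
              (‖bk ρ f (c 0) t0 ε k (h k j) p‖
              + ‖bk ρ f (c 0) t0 ε (k - 1) (fun y => exp (-y) * h k j y) p‖))
      intro k _
      apply SmB.sum (Finset.Icc 1 J) (fun j ε p =>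
              (‖bk ρ f (c 0) t0 ε k (h k j) p‖
              + ‖bk ρ f (c 0) t0 ε (k - 1) (fun y => exp (-y) * h k j y) p‖))
      intro j _
      exact (hbk k (h k j) (hK.dec k j)).add
        (hbk (k - 1) (fun y => exp (-y) * h k j y) (dec_expneg (hK.dec k j)))
  have hErr' : SmB ρ V t0 J (fun ε p => |C5| *
      ((∑ k ∈ Finset.Icc J (J + 1), ∑ j ∈ Finset.Icc 1 (J + 2),
                ‖Ik ρ f (c 0) t0 ε k (h k j) p‖)
          + ‖bk ρ f (c 0) t0 ε 0 K p‖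
          + ∑ k ∈ Finset.range (J + 1), ∑ j ∈ Finset.Icc 1 J,
              (‖bk ρ f (c 0) t0 ε k (h k j) p‖
              + ‖bk ρ f (c 0) t0 ε (k - 1) (fun y => exp (-y) * h k j y) p‖))) :=
    hErr.bmul (b := fun _ => |C5|) (abs_nonneg C5) (fun p _ => ⟨abs_nonneg C5, le_rfl⟩)
  -- bound of rho on V
  obtain ⟨R0, hR0, hR⟩ := bdd_on hcpt (u := fun p => ((ρ p : ℝ) : ℂ))
    (Complex.continuous_ofReal.comp hρc).continuousOn
  have hRρ : ∀ p ∈ V, |ρ p| ≤ R0 := by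
    intro p hp
    have := (hR p hp).2
    rwa [Complex.norm_real] at this
  obtain ⟨CE, hCE⟩ := he5 Ω ρ f k0 B V t0 c2 hS J c K' K h hJ hT hK
  -- the product Dk * Ik
  have hDI : ∀ (l k j : ℕ) (i : Fin 2), l < J → k ≤ J → 1 ≤ j → j ≤ J + 2 →
      SmB ρ V t0 J (fun ε p => ‖Dk ρ c l i p‖ * ‖Ik ρ f (c 0) t0 ε k (h k j) p‖) := by
    intro l k j i hl hk hj1 hj2
    obtain ⟨CI, hCI0, hCI⟩ := hI k (h k j) (hK.dec k j)
    refine ⟨|K'| * CI + |K'| * R0 ^ J * |CE|, by positivity, fun ε h1 h2 p hp => ?_⟩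
    obtain ⟨s0, s1, s2⟩ := hsq ε h1 h2
    have hD := hT.est l hl p hp.1 i
    have hD' : ‖Dk ρ c l i p‖ ≤ |K'| * |ρ p| ^ J :=
      le_trans hD (mul_le_mul_of_nonneg_right (le_abs_self K') (by positivity))
    by_cases hc : |ρ p| ≤ Real.sqrt ε
    · have a1 : ‖Dk ρ c l i p‖ ≤ |K'| * Real.sqrt ε ^ J :=
        le_trans hD' (mul_le_mul_of_nonneg_left (pow_le_pow_left₀ (abs_nonneg _) hc J)
          (abs_nonneg K'))
      have a2 : ‖Ik ρ f (c 0) t0 ε k (h k j) p‖ ≤ CI := by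
        refine le_trans (hCI ε h1 h2 p hp) ?_
        calc CI * Real.sqrt ε ^ k ≤ CI * 1 :=
              mul_le_mul_of_nonneg_left (pow_le_one₀ s0.le s1) hCI0
          _ = CI := mul_one CI
      calc ‖Dk ρ c l i p‖ * ‖Ik ρ f (c 0) t0 ε k (h k j) p‖
            ≤ (|K'| * Real.sqrt ε ^ J) * CI :=
              mul_le_mul a1 a2 (norm_nonneg _) (by positivity)
        _ = |K'| * CI * Real.sqrt ε ^ J := by ring
        _ ≤ (|K'| * CI + |K'| * R0 ^ J * |CE|) * Real.sqrt ε ^ J := by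
              apply mul_le_mul_of_nonneg_right _ (by positivity)
              have : 0 ≤ |K'| * R0 ^ J * |CE| := by positivity
              linarith
    · push Not at hc
      have hneg : ρ p < - Real.sqrt ε := by
        rcases le_or_gt 0 (ρ p) with hp0 | hp0
        · exfalso
          rw [abs_of_nonneg hp0] at hc
          have hp2 : ρ p < ε ^ 2 / 2 := hp.2
          have hε1 : ε < 1 := lt_of_lt_of_le h2 ht0
          nlinarith
        · rw [abs_of_neg hp0] at hc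
          linarith
      have hle : ρ p ≤ - ε := by linarith
      have a1 : ‖Dk ρ c l i p‖ ≤ |K'| * R0 ^ J :=
        le_trans hD' (mul_le_mul_of_nonneg_left
          (pow_le_pow_left₀ (abs_nonneg _) (hRρ p hp.1) J) (abs_nonneg K'))
      have a2 : ‖Ik ρ f (c 0) t0 ε k (h k j) p‖ ≤ |CE| * Real.sqrt ε ^ J := by
        have e1 := (hCE ε h1 h2 p hp.1 hle).1 k hk j hj1 hj2
        have hq : ε / |ρ p| ≤ Real.sqrt ε := by
          rw [div_le_iff₀ (lt_trans s0 hc)]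
          have := Real.mul_self_sqrt h1.le
          nlinarith
        have hq0 : 0 ≤ ε / |ρ p| := by positivity
        calc ‖Ik ρ f (c 0) t0 ε k (h k j) p‖ ≤ CE * (ε / |ρ p|) ^ (J + 1) := e1
          _ ≤ |CE| * (ε / |ρ p|) ^ (J + 1) :=
              mul_le_mul_of_nonneg_right (le_abs_self CE) (by positivity)
          _ ≤ |CE| * Real.sqrt ε ^ (J + 1) :=
              mul_le_mul_of_nonneg_left (pow_le_pow_left₀ hq0 hq (J + 1)) (abs_nonneg CE)
          _ ≤ |CE| * Real.sqrt ε ^ J :=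
              mul_le_mul_of_nonneg_left (pow_le_pow_of_le_one s0.le s1 (Nat.le_succ J))
                (abs_nonneg CE)
      calc ‖Dk ρ c l i p‖ * ‖Ik ρ f (c 0) t0 ε k (h k j) p‖
            ≤ (|K'| * R0 ^ J) * (|CE| * Real.sqrt ε ^ J) :=
              mul_le_mul a1 a2 (norm_nonneg _) (by positivity)
        _ = |K'| * R0 ^ J * |CE| * Real.sqrt ε ^ J := by ring
        _ ≤ (|K'| * CI + |K'| * R0 ^ J * |CE|) * Real.sqrt ε ^ J := by
              apply mul_le_mul_of_nonneg_right _ (by positivity)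
              have : 0 ≤ |K'| * CI := by positivity
              linarith
  -- Main
  have hMain : ∀ i : Fin 2, SmB ρ V t0 J (fun ε p => ‖Main ρ f c t0 ε J h i p‖) := by
    intro i
    have hsum : SmB ρ V t0 J (fun ε p => ∑ k ∈ Finset.range J, ∑ j ∈ Finset.range (k + 1),
        ∑ l ∈ Finset.range (k + 1), ‖exp ((k : ℂ) * c 0 p) * qf c j (k - l) p‖ *
          (‖Dk ρ c l i p‖ * ‖Ik ρ f (c 0) t0 ε k (h k (j + 1)) p‖)) := by
      apply SmB.sum (Finset.range J) (fun k ε p => ∑ j ∈ Finset.range (k + 1),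
        ∑ l ∈ Finset.range (k + 1), ‖exp ((k : ℂ) * c 0 p) * qf c j (k - l) p‖ *
          (‖Dk ρ c l i p‖ * ‖Ik ρ f (c 0) t0 ε k (h k (j + 1)) p‖))
      intro k hk
      apply SmB.sum (Finset.range (k + 1)) (fun j ε p =>
        ∑ l ∈ Finset.range (k + 1), ‖exp ((k : ℂ) * c 0 p) * qf c j (k - l) p‖ *
          (‖Dk ρ c l i p‖ * ‖Ik ρ f (c 0) t0 ε k (h k (j + 1)) p‖))
      intro j hj
      apply SmB.sum (Finset.range (k + 1)) (fun l ε p =>
        ‖exp ((k : ℂ) * c 0 p) * qf c j (k - l) p‖ *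
          (‖Dk ρ c l i p‖ * ‖Ik ρ f (c 0) t0 ε k (h k (j + 1)) p‖))
      intro l hl
      have hk' := Finset.mem_range.mp hk
      have hj' := Finset.mem_range.mp hj
      have hl' := Finset.mem_range.mp hl
      have hcont : ContinuousOn (fun p => exp ((k : ℂ) * c 0 p) * qf c j (k - l) p) (closure V) := by
        apply ContinuousOn.mul
        · exact Complex.continuous_exp.comp_continuousOn (continuousOn_const.mul (hcc 0))
        · exact qf_cont hcc j (k - l)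
      obtain ⟨Bq, hBq0, hBq⟩ := bdd_on hcpt hcont
      exact (hDI l k (j + 1) i (by omega) (by omega) (by omega) (by omega)).bmul hBq0 hBq
    apply hsum.mono
    intro ε _ _ p _
    unfold Main
    refine le_trans (norm_sum_le _ _) (Finset.sum_le_sum fun k _ => ?_)
    refine le_trans (norm_sum_le _ _) (Finset.sum_le_sum fun j _ => ?_)
    rw [norm_mul, norm_mul]
    calc ‖exp ((k : ℂ) * c 0 p)‖ * ‖∑ l ∈ Finset.range (k + 1), Dk ρ c l i p * qf c j (k - l) p‖ *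
          ‖Ik ρ f (c 0) t0 ε k (h k (j + 1)) p‖
        ≤ ‖exp ((k : ℂ) * c 0 p)‖ *
            (∑ l ∈ Finset.range (k + 1), ‖Dk ρ c l i p‖ * ‖qf c j (k - l) p‖) *
          ‖Ik ρ f (c 0) t0 ε k (h k (j + 1)) p‖ := by
          apply mul_le_mul_of_nonneg_right _ (norm_nonneg _)
          apply mul_le_mul_of_nonneg_left _ (norm_nonneg _)
          refine le_trans (norm_sum_le _ _) (Finset.sum_le_sum fun l _ => ?_)
          rw [norm_mul]
      _ = ∑ l ∈ Finset.range (k + 1), ‖exp ((k : ℂ) * c 0 p) * qf c j (k - l) p‖ *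
          (‖Dk ρ c l i p‖ * ‖Ik ρ f (c 0) t0 ε k (h k (j + 1)) p‖) := by
          rw [Finset.mul_sum, Finset.sum_mul]
          refine Finset.sum_congr rfl fun l _ => ?_
          rw [norm_mul]
          ring
  obtain ⟨E1, hE10, hE1⟩ := hErr'
  obtain ⟨M0, hM00, hM0⟩ := hMain 0
  obtain ⟨M1, hM10, hM1⟩ := hMain 1
  refine ⟨E1 + M0 + M1, fun ε h1 h2 p hp i => ?_⟩
  have hs : 0 ≤ Real.sqrt ε ^ J := by positivity
  have a1 : ‖dzb i (Feps ρ f c t0 ε J K h) p - Main ρ f c t0 ε J h i p‖ ≤ E1 * Real.sqrt ε ^ J := by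
    refine le_trans (hC5 ε h1 h2 p hp i) (le_trans ?_ (hE1 ε h1 h2 p hp))
    apply mul_le_mul_of_nonneg_right (le_abs_self C5)
    positivity
  have a2 : ‖Main ρ f c t0 ε J h i p‖ ≤ (M0 + M1) * Real.sqrt ε ^ J := by
    fin_cases i
    · have h9 : ‖Main ρ f c t0 ε J h 0 p‖ ≤ M0 * Real.sqrt ε ^ J := hM0 ε h1 h2 p hp
      have h10 : 0 ≤ M1 * Real.sqrt ε ^ J := by positivity
      show ‖Main ρ f c t0 ε J h 0 p‖ ≤ (M0 + M1) * Real.sqrt ε ^ J
      linarith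
    · have h9 : ‖Main ρ f c t0 ε J h 1 p‖ ≤ M1 * Real.sqrt ε ^ J := hM1 ε h1 h2 p hp
      have h10 : 0 ≤ M0 * Real.sqrt ε ^ J := by positivity
      show ‖Main ρ f c t0 ε J h 1 p‖ ≤ (M0 + M1) * Real.sqrt ε ^ J
      linarith
  calc ‖dzb i (Feps ρ f c t0 ε J K h) p‖
      = ‖(dzb i (Feps ρ f c t0 ε J K h) p - Main ρ f c t0 ε J h i p)
          + Main ρ f c t0 ε J h i p‖ := by rw [sub_add_cancel]
    _ ≤ E1 * Real.sqrt ε ^ J + (M0 + M1) * Real.sqrt ε ^ J :=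
        le_trans (norm_add_le _ _) (add_le_add a1 a2)
    _ = (E1 + M0 + M1) * Real.sqrt ε ^ J := by ring

end Pool.Agent.AK.H70
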