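import Pool.Agent.Helper70_AK.Per

set_option autoImplicit false

/-!
Squad AK, module B5: cutoff functions near the hypersurface.
-/

namespace Pool.Agent.AK.H70

open Complex Set Topology
open scoped Manifold ContDiff

lemma zero_subset_closure {Ω : Set C2} {ρ : C2 → ℝ} (h : SmoothDom Ω ρ) :
    {p | ρ p = 0} ⊆ closure Ω := by
  intro p hp
  by_contra hc
  have hp' : ρ p = 0 := hp
  have hev : ∀ᶠ q in 𝓝 p, q ∉ closure Ω := by
    have : IsOpen (closure Ω)ᶜ := isClosed_closure.isOpen_compl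
    exact this.mem_nhds hc
  have hmin : IsLocalMin ρ p := by
    filter_upwards [hev] with q hq
    rw [hp']
    by_contra hlt
    push Not at hlt
    apply hq
    apply subset_closure
    rw [h.eq]
    exact hlt
  exact h.grad p hp' hmin.fderiv_eq_zero

lemma zero_isCompact {Ω : Set C2} {ρ : C2 → ℝ} (h : SmoothDom Ω ρ) :
    IsCompact {p | ρ p = 0} := by
  have hcl : IsClosed {p | ρ p = 0} := isClosed_eq h.smooth.continuous continuous_const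
  have hc : IsCompact (closure Ω) := h.bdd.isCompact_closure
  exact hc.of_isClosed_subset hcl (zero_subset_closure h)

/-- the two cutoff functions -/
lemma exists_cut {Ω : Set C2} {ρ : C2 → ℝ} (h : SmoothDom Ω ρ) {W : Set C2} (hW : IsOpen W)
    (hS : {p | ρ p = 0} ⊆ W) :
    ∃ (x₁ x₂ : C2 → ℝ) (K : Set C2), IsCompact K ∧ K ⊆ W ∧
      ContDiff ℝ ((⊤ : ℕ∞) : WithTop ℕ∞) x₁ ∧ ContDiff ℝ ((⊤ : ℕ∞) : WithTop ℕ∞) x₂ ∧
      (∀ p, p ∉ K → x₁ p = 0) ∧ (∀ p, p ∉ K → x₂ p = 0) ∧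
      (∀ p, 0 ≤ x₂ p ∧ x₂ p ≤ 1) ∧
      (∀ᶠ p in 𝓝ˢ {p | ρ p = 0}, x₁ p = 1) ∧
      (∀ p, x₁ p ≠ 0 → ∀ᶠ q in 𝓝 p, x₂ q = 1) := by
  obtain ⟨K1, hK1c, hSK1, hK1W⟩ := exists_compact_between (zero_isCompact h) hW hS
  obtain ⟨K2, hK2c, hK12, hK2W⟩ := exists_compact_between hK1c hW hK1W
  obtain ⟨f1, hf1, hf1z, hf1i⟩ := exists_contMDiffMap_one_nhds_of_subset_interior
    (I := 𝓘(ℝ, C2)) (n := (⊤ : ℕ∞)) (zero_isCompact h).isClosed hSK1
  obtain ⟨f2, hf2, hf2z, hf2i⟩ := exists_contMDiffMap_one_nhds_of_subset_interior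
    (I := 𝓘(ℝ, C2)) (n := (⊤ : ℕ∞)) hK1c.isClosed hK12
  refine ⟨f1, f2, K2, hK2c, hK2W, f1.contMDiff.contDiff, f2.contMDiff.contDiff, ?_, hf2z,
    fun p => ⟨(hf2i p).1, (hf2i p).2⟩, hf1, ?_⟩
  · intro p hp
    apply hf1z
    intro hp1
    exact hp (interior_subset (hK12 hp1))
  · intro p hp
    have hpK : p ∈ K1 := by
      by_contra hc
      exact hp (hf1z p hc)
    rw [eventually_nhdsSet_iff_forall] at hf2
    exact hf2 p hpK

/-- a product with a cutoff is globally smooth -/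
lemma cut_smooth {K W : Set C2} (hK : IsClosed K) (hW : IsOpen W) (hKW : K ⊆ W) {x₂ : C2 → ℝ}
    (hx : ContDiff ℝ ((⊤ : ℕ∞) : WithTop ℕ∞) x₂) (hz : ∀ p, p ∉ K → x₂ p = 0) {f : C2 → ℂ}
    (hf : ContDiffOn ℝ ((⊤ : ℕ∞) : WithTop ℕ∞) f W) :
    ContDiff ℝ ((⊤ : ℕ∞) : WithTop ℕ∞) (fun p => ((x₂ p : ℝ) : ℂ) * f p) := by
  rw [contDiff_iff_contDiffAt]
  intro p
  by_cases hp : p ∈ W
  · have h1 : ContDiffAt ℝ ((⊤ : ℕ∞) : WithTop ℕ∞) f p := hf.contDiffAt (hW.mem_nhds hp)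
    have h2 : ContDiff ℝ ((⊤ : ℕ∞) : WithTop ℕ∞) (fun p => ((x₂ p : ℝ) : ℂ)) :=
      (Complex.ofRealCLM.contDiff (n := ((⊤ : ℕ∞) : WithTop ℕ∞))).comp hx
    exact h2.contDiffAt.mul h1
  · have hpK : p ∉ K := fun h => hp (hKW h)
    have hev : (fun p => ((x₂ p : ℝ) : ℂ) * f p) =ᶠ[𝓝 p] fun _ => 0 := by
      filter_upwards [hK.isOpen_compl.mem_nhds hpK] with q hq
      rw [hz q hq]
      simp
    exact contDiffAt_const.congr_of_eventuallyEq hev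

/-- a box containing a compact set -/
lemma exists_box {K : Set C2} (hK : IsCompact K) :
    ∃ R : ℝ, 0 < R ∧ ∀ p ∈ K, ∀ i, |xc R p i| ≤ 1 / 4 := by
  obtain ⟨B, hB⟩ := hK.isBounded.exists_norm_le
  refine ⟨4 * (|B| + 1), by positivity, ?_⟩
  intro p hp i
  have hpn := hB p hp
  have hBn : B ≤ |B| := le_abs_self B
  have hpos : (0 : ℝ) < 4 * (|B| + 1) := by positivity
  have h0 : ‖p 0‖ ≤ |B| := le_trans (norm_le_pi_norm p 0) (le_trans hpn hBn)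
  have h1 : ‖p 1‖ ≤ |B| := le_trans (norm_le_pi_norm p 1) (le_trans hpn hBn)
  have key : ∀ t : ℝ, |t| ≤ |B| → |t / (4 * (|B| + 1))| ≤ 1 / 4 := by
    intro t ht
    rw [abs_div, abs_of_pos hpos, div_le_iff₀ hpos]
    linarith
  fin_cases i
  · exact key _ (le_trans (Complex.abs_re_le_norm _) h0)
  · exact key _ (le_trans (Complex.abs_im_le_norm _) h0)
  · exact key _ (le_trans (Complex.abs_re_le_norm _) h1)
  · exact key _ (le_trans (Complex.abs_im_le_norm _) h1)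

end Pool.Agent.AK.H70
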