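import Pool.Agent.Helper70_AK.F6
import Pool.Agent.Helper70_AK.Cut

set_option autoImplicit false

/-!
Squad AK, module F7: the patching.
-/

namespace Pool.Agent.AK.H70

open Complex Set Topology Filter
open scoped Manifold ContDiff

lemma dzb_hol {f : C2 → ℂ} {z : C2} (hf : DifferentiableAt ℂ f z) (j : Fin 2) :
    dzb j f z = 0 := by
  have h : HasFDerivAt f ((fderiv ℂ f z).restrictScalars ℝ) z := hf.hasFDerivAt.restrictScalars ℝ
  unfold dzb
  rw [h.fderiv]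
  have e : (Pi.single j I : C2) = I • (Pi.single j 1 : C2) := by
    ext i
    rw [Pi.smul_apply, smul_eq_mul]
    by_cases hij : i = j
    · subst hij; simp
    · simp [Pi.single_apply, hij]
  have h2 : ((fderiv ℂ f z).restrictScalars ℝ) (Pi.single j I : C2)
      = I * ((fderiv ℂ f z).restrictScalars ℝ) (Pi.single j 1 : C2) := by
    rw [e]
    show (fderiv ℂ f z) (I • (Pi.single j 1 : C2)) = I * (fderiv ℂ f z) (Pi.single j 1 : C2)
    rw [map_smul, smul_eq_mul]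
  rw [h2]
  simp only [smul_eq_mul]
  have := Complex.I_mul_I
  linear_combination (1 / 2 : ℂ) * ((fderiv ℂ f z).restrictScalars ℝ) (Pi.single j 1 : C2) * this

lemma dzb_congr {u v : C2 → ℂ} {p : C2} (h : u =ᶠ[𝓝 p] v) (j : Fin 2) :
    dzb j u p = dzb j v p := by
  unfold dzb
  rw [h.fderiv_eq]

/-- a cutoff function with compact support in V, equal to one near S -/
lemma exists_cut1 {S V : Set C2} (hS : IsCompact S) (hV : IsOpen V) (hSV : S ⊆ V) :
    ∃ χ : C2 → ℝ, ContDiff ℝ ((⊤ : ℕ∞) : WithTop ℕ∞) χ ∧ HasCompactSupport χ ∧ tsupport χ ⊆ V ∧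
      (∀ p, 0 ≤ χ p ∧ χ p ≤ 1) ∧ S ⊆ interior {p | χ p = 1} := by
  obtain ⟨K1, hK1c, hSK1, hK1V⟩ := exists_compact_between hS hV hSV
  obtain ⟨f1, hf1, hf1z, hf1i⟩ := exists_contMDiffMap_one_nhds_of_subset_interior
    (I := 𝓘(ℝ, C2)) (n := (⊤ : ℕ∞)) hS.isClosed hSK1
  have hsupp : tsupport f1 ⊆ K1 := by
    apply closure_minimal _ hK1c.isClosed
    intro p hp
    by_contra hc
    exact hp (hf1z p hc)
  refine ⟨f1, f1.contMDiff.contDiff, ?_, hsupp.trans hK1V, fun p => ⟨(hf1i p).1, (hf1i p).2⟩, ?_⟩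
  · exact hK1c.of_isClosed_subset (isClosed_tsupport _) hsupp
  · exact subset_interior_iff_mem_nhdsSet.mpr hf1

lemma smooth_bdd {χ : C2 → ℂ} (hs : ContDiff ℝ ((⊤ : ℕ∞) : WithTop ℕ∞) χ)
    (hc : HasCompactSupport χ) (n : ℕ) :
    ∃ C : ℝ, 0 ≤ C ∧ ∀ i ≤ n, ∀ y, ‖iteratedFDeriv ℝ i χ y‖ ≤ C := by
  have h1 : ∀ i : ℕ, ∃ C : ℝ, 0 ≤ C ∧ ∀ y, ‖iteratedFDeriv ℝ i χ y‖ ≤ C := by
    intro i
    have hcs : HasCompactSupport (iteratedFDeriv ℝ i χ) := hc.iteratedFDeriv i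
    have hcont : Continuous (iteratedFDeriv ℝ i χ) := by
      apply hs.continuous_iteratedFDeriv
      exact WithTop.coe_le_coe.mpr (le_top : ((i : ℕ∞)) ≤ ⊤)
    obtain ⟨C, hC⟩ := hcs.exists_bound_of_continuous hcont
    exact ⟨|C|, abs_nonneg C, fun y => le_trans (hC y) (le_abs_self C)⟩
  choose C hC0 hC using h1
  refine ⟨∑ i ∈ Finset.range (n + 1), C i, Finset.sum_nonneg fun i _ => hC0 i, ?_⟩
  intro i hi y
  refine le_trans (hC i y) ?_
  exact Finset.single_le_sum (f := C) (fun j _ => hC0 j) (Finset.mem_range.mpr (by omega))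

lemma norm_iter_mul_on {s : Set C2} (hs : IsOpen s) {u v : C2 → ℂ} {N : ℕ}
    (hu : ContDiffOn ℝ (N : WithTop ℕ∞) u s) (hv : ContDiffOn ℝ (N : WithTop ℕ∞) v s) {x : C2}
    (hx : x ∈ s) {n : ℕ} (hn : n ≤ N) {A B : ℝ} (hA : 0 ≤ A) (hB : 0 ≤ B)
    (ha : ∀ i ≤ N, ‖iteratedFDeriv ℝ i u x‖ ≤ A) (hb : ∀ i ≤ N, ‖iteratedFDeriv ℝ i v x‖ ≤ B) :
    ‖iteratedFDeriv ℝ n (fun y => u y * v y) x‖ ≤ 2 ^ N * A * B := by
  have h := norm_iteratedFDerivWithin_mul_le hu hv hs.uniqueDiffOn hx (n := n)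
    (by exact_mod_cast hn)
  rw [iteratedFDerivWithin_of_isOpen n hs hx] at h
  refine le_trans h ?_
  have e : ∀ i ∈ Finset.range (n + 1), (n.choose i : ℝ) * ‖iteratedFDerivWithin ℝ i u s x‖ *
        ‖iteratedFDerivWithin ℝ (n - i) v s x‖ ≤ (n.choose i : ℝ) * A * B := by
    intro i hi
    have hi' := Finset.mem_range.mp hi
    rw [iteratedFDerivWithin_of_isOpen i hs hx, iteratedFDerivWithin_of_isOpen (n - i) hs hx]
    have h1 := ha i (by omega)
    have h2 := hb (n - i) (by omega)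
    apply mul_le_mul _ h2 (norm_nonneg _) (by positivity)
    exact mul_le_mul_of_nonneg_left h1 (by positivity)
  refine le_trans (Finset.sum_le_sum e) ?_
  rw [← Finset.sum_mul, ← Finset.sum_mul]
  have hc : (∑ i ∈ Finset.range (n + 1), (n.choose i : ℝ)) = 2 ^ n := by
    exact_mod_cast Nat.sum_range_choose n
  rw [hc]
  have h2 : (2 : ℝ) ^ n ≤ 2 ^ N := pow_le_pow_right₀ (by norm_num) hn
  exact mul_le_mul_of_nonneg_right (mul_le_mul_of_nonneg_right h2 hA) hB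

/-- F7 -/
theorem f7 : F7Stmt := by
  intro hT2 hF0 hF2 hF3 hE4 hE5 hF6
  intro Ω ρ f k0 hdom hcs hk0 hhol hCf M δ κ1 cc hδ hκ1 hcc
  have hρ := hdom.smooth
  have hρc : Continuous ρ := hρ.continuous
  have hΩo : IsOpen Ω := by
    rw [hdom.eq]
    exact isOpen_lt hρc continuous_const
  have hmem : ∀ z, z ∈ Ω ↔ ρ z < 0 := by
    intro z; rw [hdom.eq]; rfl
  set J : ℕ := 4 * M + 2 with hJ
  obtain ⟨U, hUo, hSU, c, hcs', K', hK'⟩ := hT2 Ω ρ hdom J J (k0 + 1)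
  obtain ⟨V, t0, c2, hgeo, hVU⟩ := hF2 Ω ρ hdom U hUo hSU
  obtain ⟨B, hB⟩ := hF0 Ω ρ f k0 hdom hhol hCf
  obtain ⟨K, h, hKer⟩ := hF3 J
  have hSA : SetA Ω ρ f k0 B V t0 c2 := ⟨hdom, hB, hk0, hgeo⟩
  have hTow : Tow ρ V J (k0 + 1) c K' := by
    refine ⟨fun k => ⟨U, hUo, hVU, hcs' k⟩, fun k hk p hp i => ?_⟩
    exact hK' k hk p (hVU (subset_closure hp)) i
  have hJ1 : 1 ≤ J := by omega
  obtain ⟨hE4s, hE4c⟩ := hE4 Ω ρ f k0 B V t0 c2 hSA J c K' K h hJ1 hTow hKer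
  obtain ⟨C5, hC5⟩ := hE5 Ω ρ f k0 B V t0 c2 hSA J c K' K h hJ1 hTow hKer
  obtain ⟨C6, hC6⟩ := hF6 Ω ρ f k0 B V t0 c2 hSA J c K' K h hJ1 hTow hKer
  have hVo := hgeo.opn
  have ht0 := hgeo.t0pos
  -- the cutoff
  obtain ⟨χ, hχs, hχc, hχV, hχi, hχ1⟩ := exists_cut1 (zero_isCompact hdom) hVo hgeo.bd
  set X : C2 → ℂ := fun p => ((χ p : ℝ) : ℂ) with hX
  have hXs : ContDiff ℝ ((⊤ : ℕ∞) : WithTop ℕ∞) X :=
    (Complex.ofRealCLM.contDiff (n := ((⊤ : ℕ∞) : WithTop ℕ∞))).comp hχs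
  have hXc : HasCompactSupport X := by
    apply hχc.comp_left (g := fun x : ℝ => (x : ℂ))
    simp
  have hXn : ∀ p, ‖X p‖ ≤ 1 := by
    intro p
    rw [hX]
    simp only [Complex.norm_real, Real.norm_eq_abs]
    rw [abs_of_nonneg (hχi p).1]
    exact (hχi p).2
  obtain ⟨CX, hCX0, hCX⟩ := smooth_bdd hXs hXc (k0 + 1)
  have hX1 : ∀ p ∈ interior {p | χ p = 1}, X p = 1 := by
    intro p hp
    have : χ p = 1 := interior_subset (s := {p | χ p = 1}) hp
    rw [hX]; simp [this]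
  have hX0 : ∀ p, p ∉ tsupport χ → X p = 0 := by
    intro p hp
    have : χ p = 0 := image_eq_zero_of_notMem_tsupport hp
    rw [hX]; simp [this]
  -- the zero set is deep inside {χ = 1}
  obtain ⟨κ2, hκ2, hκ2'⟩ : ∃ κ2 : ℝ, 0 < κ2 ∧ ∀ z, 0 ≤ ρ z → ρ z < κ2 →
      z ∈ interior {p | χ p = 1} := by
    have hA : IsCompact ({z | 0 ≤ ρ z ∧ ρ z ≤ 1 / 2} \ interior {p | χ p = 1}) := by
      have hcl : IsClosed ({z | 0 ≤ ρ z ∧ ρ z ≤ 1 / 2} \ interior {p | χ p = 1}) := by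
        apply IsClosed.inter _ isOpen_interior.isClosed_compl
        exact (isClosed_le continuous_const hρc).inter (isClosed_le hρc continuous_const)
      apply hcs.of_isClosed_subset hcl
      rintro z ⟨⟨_, hz2⟩, _⟩
      apply subset_tsupport
      rw [Function.mem_support]
      intro h0
      linarith
    have hpos : ∀ z ∈ ({z | 0 ≤ ρ z ∧ ρ z ≤ 1 / 2} \ interior {p | χ p = 1}), 0 < ρ z := by
      rintro z ⟨⟨hz1, _⟩, hz3⟩
      rcases lt_or_eq_of_le hz1 with h0 | h0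
      · exact h0
      · exact absurd (hχ1 h0.symm) hz3
    obtain ⟨a, ha0, ha⟩ := hA.exists_forall_le' hρc.continuousOn hpos
    refine ⟨min a (1 / 2), lt_min ha0 (by norm_num), ?_⟩
    intro z hz1 hz2
    by_contra hc
    have h1 := ha z ⟨⟨hz1, (lt_of_lt_of_le hz2 (min_le_right _ _)).le⟩, hc⟩
    have h2 := lt_of_lt_of_le hz2 (min_le_left a (1 / 2))
    linarith
  obtain ⟨d0, hd0, hd0'⟩ : ∃ d0 : ℝ, 0 < d0 ∧ ∀ z ∈ tsupport χ, z ∉ interior {p | χ p = 1} →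
      ρ z < 0 → ρ z ≤ - d0 := by
    have hA : IsCompact ((tsupport χ ∩ {z | ρ z ≤ 0}) \ interior {p | χ p = 1}) := by
      have hcl : IsClosed ((tsupport χ ∩ {z | ρ z ≤ 0}) \ interior {p | χ p = 1}) := by
        apply IsClosed.inter _ isOpen_interior.isClosed_compl
        exact (isClosed_tsupport _).inter (isClosed_le hρc continuous_const)
      apply hχc.of_isClosed_subset hcl
      rintro z ⟨⟨h1, _⟩, _⟩
      exact h1
    have hpos : ∀ z ∈ ((tsupport χ ∩ {z | ρ z ≤ 0}) \ interior {p | χ p = 1}), 0 < - ρ z := by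
      rintro z ⟨⟨_, hz1⟩, hz3⟩
      have hz1' : ρ z ≤ 0 := hz1
      rcases lt_or_eq_of_le hz1' with h0 | h0
      · linarith
      · exact absurd (hχ1 h0) hz3
    obtain ⟨a, ha0, ha⟩ := hA.exists_forall_le' hρc.neg.continuousOn hpos
    refine ⟨a, ha0, ?_⟩
    intro z hz1 hz2 hz3
    have h9 : a ≤ - ρ z := ha z ⟨⟨hz1, hz3.le⟩, hz2⟩
    linarith
  -- choice of delta prime and r
  set δ' : ℝ := δ / (2 * (2 ^ k0 * CX + 1)) with hδ'
  have hden : 0 < 2 ^ k0 * CX + 1 := by positivity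
  have hδ'0 : 0 < δ' := by positivity
  have hδ'1 : δ' ≤ δ := by
    rw [hδ', div_le_iff₀ (by positivity)]
    have : 0 ≤ 2 ^ k0 * CX := by positivity
    nlinarith
  have hδ'2 : 2 ^ k0 * CX * δ' ≤ δ / 2 := by
    have e : (2 ^ k0 * CX + 1) * δ' = δ / 2 := by
      rw [hδ']; field_simp
    nlinarith
  obtain ⟨ε0, hε00, hε0t, hE4d⟩ := hE4c δ' hδ'0
  have hrr : ∃ r : ℝ, 0 < r ∧ ∀ j ≤ k0, ∀ x ∈ Ω, ∀ y ∈ Ω, ‖x - y‖ < r →
      ‖iteratedFDeriv ℝ j f x - iteratedFDeriv ℝ j f y‖ ≤ δ / 2 := by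
    have hj : ∀ j : ℕ, ∃ r : ℝ, 0 < r ∧ (j ≤ k0 → ∀ x ∈ Ω, ∀ y ∈ Ω, ‖x - y‖ < r →
      ‖iteratedFDeriv ℝ j f x - iteratedFDeriv ℝ j f y‖ ≤ δ / 2) := by
      intro j
      by_cases hj : j ≤ k0
      · obtain ⟨r, hr0, hr⟩ := hB.unif j hj (δ / 2) (by positivity)
        exact ⟨r, hr0, fun _ => hr⟩
      · exact ⟨1, one_pos, fun h' => absurd h' hj⟩
    choose r hr0 hr using hj
    refine ⟨(Finset.range (k0 + 1)).inf' ⟨0, by simp⟩ r, ?_, ?_⟩
    · obtain ⟨i, _, hi⟩ := Finset.exists_mem_eq_inf' (s := Finset.range (k0 + 1)) ⟨0, by simp⟩ r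
      rw [hi]
      exact hr0 i
    · intro j hj x hx y hy hxy
      apply hr j hj x hx y hy
      refine lt_of_lt_of_le hxy ?_
      exact Finset.inf'_le r (Finset.mem_range.mpr (by omega))
  obtain ⟨r, hr0, hr⟩ := hrr
  -- the total constant
  set Ct : ℝ := |C6| + CX * (|C5| / d0 ^ (J + 1)) with hCt
  have hCt0 : 0 ≤ Ct := by positivity
  have hev : ∀ᶠ ε : ℝ in 𝓝[>] 0, ε < t0 ∧ ε < ε0 ∧ ε ^ 2 / 4 ≤ κ1 ∧ ε ^ 2 / 4 < κ2 ∧
      Ct * 4 ^ M * ε ≤ 1 ∧ cc * (ε ^ 2 / 4) ≤ ε ∧ cc * (ε ^ 2 / 4) < r ∧ ε ≤ d0 := by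
    have hnhds : ∀ (g : ℝ → ℝ), Continuous g → ∀ a : ℝ, g 0 < a →
        ∀ᶠ ε : ℝ in 𝓝[>] 0, g ε < a := by
      intro g hg a ha
      apply Filter.Eventually.filter_mono nhdsWithin_le_nhds
      exact hg.continuousAt.eventually_lt continuousAt_const ha
    have e1 := hnhds (fun ε => ε) continuous_id t0 ht0
    have e2 := hnhds (fun ε => ε) continuous_id ε0 hε00
    have e3 := hnhds (fun ε => ε ^ 2 / 4) (by fun_prop) κ1 (by simpa using hκ1)
    have e4 := hnhds (fun ε => ε ^ 2 / 4) (by fun_prop) κ2 (by simpa using hκ2)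
    have e5 := hnhds (fun ε => Ct * 4 ^ M * ε) (by fun_prop) 1 (by simp)
    have e6 := hnhds (fun ε => cc * (ε / 4)) (by fun_prop) 1 (by simp)
    have e7 := hnhds (fun ε => cc * (ε ^ 2 / 4)) (by fun_prop) r (by simpa using hr0)
    have e8 := hnhds (fun ε => ε) continuous_id d0 hd0
    have e9 : ∀ᶠ ε : ℝ in 𝓝[>] 0, 0 < ε := eventually_mem_nhdsWithin
    filter_upwards [e1, e2, e3, e4, e5, e6, e7, e8, e9] with ε h1 h2 h3 h4 h5 h6 h7 h8 h9
    refine ⟨h1, h2, h3.le, h4, h5.le, ?_, h7, h8.le⟩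
    have : cc * (ε ^ 2 / 4) = (cc * (ε / 4)) * ε := by ring
    rw [this]
    nlinarith
  obtain ⟨ε, ⟨hεt, hεε0, hεκ1, hεκ2, hεC, hεc, hεr, hεd⟩, hεpos⟩ :=
    (hev.and (eventually_mem_nhdsWithin : ∀ᶠ ε : ℝ in 𝓝[>] 0, ε ∈ Ioi 0)).exists
  have hε : 0 < ε := hεpos
  have hε1 : ε < 1 := lt_of_lt_of_le hεt hgeo.t0le
  set κ : ℝ := ε ^ 2 / 4 with hκdef
  have hκ0 : 0 < κ := by positivity
  have hκV : ∀ z, ρ z < κ → z ∈ V → z ∈ Veps ρ V ε := by
    intro z hz hzV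
    refine ⟨hzV, ?_⟩
    have : κ < ε ^ 2 / 2 := by rw [hκdef]; nlinarith [sq_nonneg ε, hε]
    linarith
  set Fe : C2 → ℂ := Feps ρ f c t0 ε J K h with hFe
  have hVeo : IsOpen (Veps ρ V ε) := hVo.inter (isOpen_lt hρc continuous_const)
  have hFes : ContDiffOn ℝ ((k0 + 1 : ℕ) : WithTop ℕ∞) Fe (Veps ρ V ε) := hE4s ε hε hεt
  have hFesk : ContDiffOn ℝ (k0 : WithTop ℕ∞) Fe (Veps ρ V ε) :=
    hFes.of_le (by exact_mod_cast Nat.le_succ k0)
  have hksm : (k0 : WithTop ℕ∞) ≤ ((⊤ : ℕ∞) : WithTop ℕ∞) :=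
    WithTop.coe_le_coe.mpr (le_top : ((k0 : ℕ∞)) ≤ ⊤)
  have hfsk : ContDiffOn ℝ (k0 : WithTop ℕ∞) f Ω := hB.smooth.of_le hksm
  set F : C2 → ℂ := fun z => X z * Fe z + (1 - X z) * f z with hF
  -- germs
  have g1 : ∀ z, z ∉ tsupport χ → F =ᶠ[𝓝 z] f := by
    intro z hz
    filter_upwards [(isClosed_tsupport χ).isOpen_compl.mem_nhds hz] with q hq
    simp only [hF]
    rw [hX0 q hq]; ring
  have g2 : ∀ z ∈ interior {p | χ p = 1}, F =ᶠ[𝓝 z] Fe := by
    intro z hz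
    filter_upwards [isOpen_interior.mem_nhds hz] with q hq
    simp only [hF]
    rw [hX1 q hq]; ring
  have g3 : F = fun z => X z * (Fe z - f z) + f z := by
    funext z; simp only [hF]; ring
  -- case analysis
  have hcase : ∀ z, ρ z < κ → (z ∈ interior {p | χ p = 1} ∧ z ∈ Veps ρ V ε) ∨
      (z ∉ tsupport χ ∧ z ∈ Ω) ∨
      (z ∈ tsupport χ ∧ z ∉ interior {p | χ p = 1} ∧ z ∈ Veps ρ V ε ∧ z ∈ Ω) := by
    intro z hz
    by_cases h1 : z ∈ interior {p | χ p = 1}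
    · left
      refine ⟨h1, hκV z hz (hχV (subset_tsupport _ ?_))⟩
      have : χ z = 1 := interior_subset (s := {p | χ p = 1}) h1
      rw [Function.mem_support, this]
      norm_num
    · have hzΩ : z ∈ Ω := by
        rw [hmem]
        by_contra hc
        push Not at hc
        exact h1 (hκ2' z hc (lt_trans hz hεκ2))
      by_cases h2 : z ∈ tsupport χ
      · right; right
        exact ⟨h2, h1, hκV z hz (hχV h2), hzΩ⟩
      · right; left
        exact ⟨h2, hzΩ⟩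
  have hΩd : ∀ z ∈ Ω, DifferentiableAt ℂ f z := fun z hz => hhol.differentiableAt (hΩo.mem_nhds hz)
  refine ⟨κ, hκ0, hεκ1, F, ?_, ?_, ?_⟩
  · -- smoothness
    intro z hz
    have hz' : ρ z < κ := hz
    apply ContDiffAt.contDiffWithinAt
    rcases hcase z hz' with ⟨h1, h2⟩ | ⟨h1, h2⟩ | ⟨h1, h2, h3, h4⟩
    · exact (hFesk.contDiffAt (hVeo.mem_nhds h2)).congr_of_eventuallyEq (g2 z h1)
    · exact (hfsk.contDiffAt (hΩo.mem_nhds h2)).congr_of_eventuallyEq (g1 z h1)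
    · rw [g3]
      have a1 := hFesk.contDiffAt (hVeo.mem_nhds h3)
      have a2 := hfsk.contDiffAt (hΩo.mem_nhds h4)
      exact ((hXs.of_le hksm).contDiffAt.mul (a1.sub a2)).add a2
  · -- dbar
    intro z hz j
    have hsq : Real.sqrt ε ^ J = ε ^ (2 * M + 1) := by
      have e : J = 2 * (2 * M + 1) := by omega
      rw [e, pow_mul, Real.sq_sqrt hε.le]
    have hfin : Ct * ε ^ (2 * M + 1) ≤ κ ^ M := by
      have e : κ ^ M = ε ^ (2 * M) / 4 ^ M := by
        rw [hκdef, div_pow, ← pow_mul]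
      rw [e, le_div_iff₀ (by positivity)]
      calc Ct * ε ^ (2 * M + 1) * 4 ^ M = (Ct * 4 ^ M * ε) * ε ^ (2 * M) := by ring
        _ ≤ 1 * ε ^ (2 * M) := mul_le_mul_of_nonneg_right hεC (by positivity)
        _ = ε ^ (2 * M) := one_mul _
    have hκM : 0 ≤ κ ^ M := by positivity
    have hC6' : ∀ q ∈ Veps ρ V ε, ‖dzb j Fe q‖ ≤ |C6| * ε ^ (2 * M + 1) := by
      intro q hq
      have := hC6 ε hε hεt q hq j
      rw [hsq] at this
      exact le_trans this (mul_le_mul_of_nonneg_right (le_abs_self C6) (by positivity))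
    rcases hcase z hz with ⟨h1, h2⟩ | ⟨h1, h2⟩ | ⟨h1, h2, h3, h4⟩
    · rw [dzb_congr (g2 z h1)]
      refine le_trans (hC6' z h2) (le_trans ?_ hfin)
      apply mul_le_mul_of_nonneg_right _ (by positivity)
      rw [hCt]
      have : 0 ≤ CX * (|C5| / d0 ^ (J + 1)) := by positivity
      linarith
    · rw [dzb_congr (g1 z h1), dzb_hol (hΩd z h2)]
      simpa using hκM
    · have hρz : ρ z ≤ - d0 := hd0' z h1 h2 ((hmem z).mp h4)
      have hρz2 : ρ z ≤ - ε := by linarith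
      have hρabs : d0 ≤ |ρ z| := by
        rw [abs_of_neg (by linarith)]
        linarith
      have dX : DifferentiableAt ℝ X z := smooth_diff hXs z
      have dFe : DifferentiableAt ℝ Fe z := by
        apply (hFes.contDiffAt (hVeo.mem_nhds h3)).differentiableAt
        exact_mod_cast Nat.succ_ne_zero k0
      have df : DifferentiableAt ℝ f z := (hΩd z h4).restrictScalars ℝ
      have e1 : dzb j F z = X z * dzb j Fe z + (Fe z - f z) * dzb j X z := by
        rw [g3]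
        have hd : DifferentiableAt ℝ (fun q => Fe q - f q) z := dFe.sub df
        have hp : DifferentiableAt ℝ (fun q => X q * (Fe q - f q)) z := dX.mul hd
        rw [dzb_add j hp df, dzb_mul j dX hd, dzb_sub j dFe df, dzb_hol (hΩd z h4)]
        ring
      rw [e1]
      have b1 : ‖X z * dzb j Fe z‖ ≤ |C6| * ε ^ (2 * M + 1) := by
        rw [norm_mul]
        calc ‖X z‖ * ‖dzb j Fe z‖ ≤ 1 * ‖dzb j Fe z‖ :=
              mul_le_mul_of_nonneg_right (hXn z) (norm_nonneg _)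
          _ = ‖dzb j Fe z‖ := one_mul _
          _ ≤ _ := hC6' z h3
      have b2 : ‖dzb j X z‖ ≤ CX := by
        have hfd : ‖fderiv ℝ X z‖ ≤ CX := by
          have := hCX 1 (by omega) z
          rwa [norm_iteratedFDeriv_one] at this
        have hs1 : ‖(Pi.single j 1 : C2)‖ ≤ 1 := by
          rw [pi_norm_le_iff_of_nonneg zero_le_one]
          intro i
          by_cases hij : i = j
          · subst hij; simp
          · simp [Pi.single_apply, hij]
        have hsI : ‖(Pi.single j I : C2)‖ ≤ 1 := by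
          rw [pi_norm_le_iff_of_nonneg zero_le_one]
          intro i
          by_cases hij : i = j
          · subst hij; simp
          · simp [Pi.single_apply, hij]
        have n1 : ‖fderiv ℝ X z (Pi.single j 1)‖ ≤ CX :=
          le_trans ((fderiv ℝ X z).le_opNorm _) (by nlinarith [norm_nonneg (fderiv ℝ X z)])
        have n2 : ‖fderiv ℝ X z (Pi.single j I)‖ ≤ CX :=
          le_trans ((fderiv ℝ X z).le_opNorm _) (by nlinarith [norm_nonneg (fderiv ℝ X z)])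
        unfold dzb
        rw [norm_smul]
        have : ‖fderiv ℝ X z (Pi.single j 1) + I • fderiv ℝ X z (Pi.single j I)‖ ≤ CX + CX := by
          refine le_trans (norm_add_le _ _) (add_le_add n1 ?_)
          rw [norm_smul, Complex.norm_I, one_mul]
          exact n2
        have h12 : ‖(1 / 2 : ℂ)‖ = 1 / 2 := by norm_num
        rw [h12]
        linarith
      have b3 : ‖Fe z - f z‖ ≤ (|C5| / d0 ^ (J + 1)) * ε ^ (2 * M + 1) := by
        have e2 := (hC5 ε hε hεt z h3.1 hρz2).2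
        have hq : ε / |ρ z| ≤ ε / d0 := div_le_div_of_nonneg_left hε.le hd0 hρabs
        have hq0 : 0 ≤ ε / |ρ z| := by positivity
        calc ‖Fe z - f z‖ ≤ C5 * (ε / |ρ z|) ^ (J + 1) := e2
          _ ≤ |C5| * (ε / |ρ z|) ^ (J + 1) :=
              mul_le_mul_of_nonneg_right (le_abs_self C5) (by positivity)
          _ ≤ |C5| * (ε / d0) ^ (J + 1) :=
              mul_le_mul_of_nonneg_left (pow_le_pow_left₀ hq0 hq _) (abs_nonneg C5)
          _ = (|C5| / d0 ^ (J + 1)) * ε ^ (J + 1) := by rw [div_pow]; ring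
          _ ≤ (|C5| / d0 ^ (J + 1)) * ε ^ (2 * M + 1) := by
              apply mul_le_mul_of_nonneg_left _ (by positivity)
              exact pow_le_pow_of_le_one hε.le hε1.le (by omega)
      have b4 : ‖(Fe z - f z) * dzb j X z‖ ≤ (CX * (|C5| / d0 ^ (J + 1))) * ε ^ (2 * M + 1) := by
        rw [norm_mul]
        calc ‖Fe z - f z‖ * ‖dzb j X z‖
            ≤ ((|C5| / d0 ^ (J + 1)) * ε ^ (2 * M + 1)) * CX :=
              mul_le_mul b3 b2 (norm_nonneg _) (by positivity)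
          _ = _ := by ring
      refine le_trans (norm_add_le _ _) (le_trans (add_le_add b1 b4) (le_trans (le_of_eq ?_) hfin))
      rw [hCt]; ring
  · -- closeness
    intro j hj x hx y hy hρy
    have hxΩ : x ∈ Ω := (hmem x).mpr hx
    have hyx : ‖x - y‖ < cc * κ := by
      have := hy
      rw [Metric.mem_ball, dist_eq_norm] at this
      rwa [norm_sub_rev]
    have hyx1 : ‖x - y‖ ≤ ε := le_trans hyx.le hεc
    have hyx2 : ‖x - y‖ < r := lt_trans hyx hεr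
    rcases hcase y hρy with ⟨h1, h2⟩ | ⟨h1, h2⟩ | ⟨h1, h2, h3, h4⟩
    · rw [((g2 y h1).iteratedFDeriv ℝ j).self_of_nhds]
      exact le_trans (hE4d ε hε hεε0 y h2 x hxΩ hyx1 j hj) hδ'1
    · rw [((g1 y h1).iteratedFDeriv ℝ j).self_of_nhds]
      rw [norm_sub_rev]
      have := hr j hj x hxΩ y h2 hyx2
      linarith
    · have hso : IsOpen (Veps ρ V ε ∩ Ω) := hVeo.inter hΩo
      have hys : y ∈ Veps ρ V ε ∩ Ω := ⟨h3, h4⟩
      have cX : ContDiffOn ℝ (k0 : WithTop ℕ∞) X (Veps ρ V ε ∩ Ω) := (hXs.of_le hksm).contDiffOn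
      have cF : ContDiffOn ℝ (k0 : WithTop ℕ∞) Fe (Veps ρ V ε ∩ Ω) :=
        hFesk.mono inter_subset_left
      have cf : ContDiffOn ℝ (k0 : WithTop ℕ∞) f (Veps ρ V ε ∩ Ω) := hfsk.mono inter_subset_right
      have cD : ContDiffOn ℝ (k0 : WithTop ℕ∞) (fun q => Fe q - f q) (Veps ρ V ε ∩ Ω) := cF.sub cf
      have hbD : ∀ i ≤ k0, ‖iteratedFDeriv ℝ i (fun q => Fe q - f q) y‖ ≤ δ' := by
        intro i hi
        have hi' : (i : WithTop ℕ∞) ≤ (k0 : WithTop ℕ∞) := by exact_mod_cast hi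
        have c1 : ContDiffAt ℝ (i : WithTop ℕ∞) Fe y :=
          (cF.contDiffAt (hso.mem_nhds hys)).of_le hi'
        have c2 : ContDiffAt ℝ (i : WithTop ℕ∞) f y :=
          (cf.contDiffAt (hso.mem_nhds hys)).of_le hi'
        have e := iteratedFDeriv_sub_apply c1 c2
        have e' : iteratedFDeriv ℝ i (fun q => Fe q - f q) y
            = iteratedFDeriv ℝ i Fe y - iteratedFDeriv ℝ i f y := e
        rw [e']
        exact hE4d ε hε hεε0 y h3 y h4 (by simp [hε.le]) i hi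
      have hm := norm_iter_mul_on hso cX cD hys hj hCX0 hδ'0.le
        (fun i hi => hCX i (by omega) y) hbD
      have hj' : (j : WithTop ℕ∞) ≤ (k0 : WithTop ℕ∞) := by exact_mod_cast hj
      have c3 : ContDiffAt ℝ (j : WithTop ℕ∞) (fun q => X q * (Fe q - f q)) y :=
        ((cX.mul cD).contDiffAt (hso.mem_nhds hys)).of_le hj'
      have c4 : ContDiffAt ℝ (j : WithTop ℕ∞) f y :=
        (cf.contDiffAt (hso.mem_nhds hys)).of_le hj'
      have e5 : iteratedFDeriv ℝ j F y = iteratedFDeriv ℝ j (fun q => X q * (Fe q - f q)) y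
          + iteratedFDeriv ℝ j f y := by
        rw [g3]
        exact iteratedFDeriv_add_apply c3 c4
      have e6 := hr j hj x hxΩ y h4 hyx2
      rw [e5]
      have e7 : iteratedFDeriv ℝ j (fun q => X q * (Fe q - f q)) y + iteratedFDeriv ℝ j f y
          - iteratedFDeriv ℝ j f x = iteratedFDeriv ℝ j (fun q => X q * (Fe q - f q)) y
          - (iteratedFDeriv ℝ j f x - iteratedFDeriv ℝ j f y) := by abel
      rw [e7]
      refine le_trans (norm_sub_le _ _) ?_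
      have : ‖iteratedFDeriv ℝ j (fun q => X q * (Fe q - f q)) y‖ ≤ δ / 2 := le_trans hm hδ'2
      linarith

end Pool.Agent.AK.H70
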