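import Pool.Agent.Helper70_AK.Wirt

set_option autoImplicit false

/-!
Squad AK, module B4: the pointwise identities.
-/

namespace Pool.Agent.AK.H70

open Complex

variable {ρ : C2 → ℝ}

lemma rc_smooth (hρ : ContDiff ℝ ((⊤ : ℕ∞) : WithTop ℕ∞) ρ) :
    ContDiff ℝ ((⊤ : ℕ∞) : WithTop ℕ∞) (rc ρ) := by
  have : ContDiff ℝ ((⊤ : ℕ∞) : WithTop ℕ∞) (fun x : ℝ => (x : ℂ)) := Complex.ofRealCLM.contDiff
  exact this.comp hρ

lemma rc_conj : (fun q => (starRingEnd ℂ) (rc ρ q)) = rc ρ := by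
  funext q; exact Complex.conj_ofReal _

lemma rj_smooth (hρ : ContDiff ℝ ((⊤ : ℕ∞) : WithTop ℕ∞) ρ) (j : Fin 2) :
    ContDiff ℝ ((⊤ : ℕ∞) : WithTop ℕ∞) (rj ρ j) := dz_smooth (rc_smooth hρ) j

lemma rjb_smooth (hρ : ContDiff ℝ ((⊤ : ℕ∞) : WithTop ℕ∞) ρ) (j : Fin 2) :
    ContDiff ℝ ((⊤ : ℕ∞) : WithTop ℕ∞) (rjb ρ j) := dzb_smooth (rc_smooth hρ) j

lemma smooth_diff {u : C2 → ℂ} (hu : ContDiff ℝ ((⊤ : ℕ∞) : WithTop ℕ∞) u) (p : C2) :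
    DifferentiableAt ℝ u p := (hu.differentiable (by simp)) p

lemma smooth_two {u : C2 → ℂ} (hu : ContDiff ℝ ((⊤ : ℕ∞) : WithTop ℕ∞) u) (p : C2) :
    ContDiffAt ℝ 2 u p := by
  have h : (2 : WithTop ℕ∞) ≤ ((⊤ : ℕ∞) : WithTop ℕ∞) := by
    exact WithTop.coe_le_coe.mpr (le_top : ((2 : ℕ∞)) ≤ ⊤)
  exact (hu.of_le h).contDiffAt

lemma rjb_eq (hρ : ContDiff ℝ ((⊤ : ℕ∞) : WithTop ℕ∞) ρ) (j : Fin 2) (p : C2) :
    rjb ρ j p = (starRingEnd ℂ) (rj ρ j p) := by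
  have h := dzb_conj j (smooth_diff (rc_smooth hρ) p)
  rw [rc_conj] at h
  exact h

lemma conj_rjb (hρ : ContDiff ℝ ((⊤ : ℕ∞) : WithTop ℕ∞) ρ) (j : Fin 2) (p : C2) :
    (starRingEnd ℂ) (rjb ρ j p) = rj ρ j p := by
  rw [rjb_eq hρ, Complex.conj_conj]

lemma rjb_fun (hρ : ContDiff ℝ ((⊤ : ℕ∞) : WithTop ℕ∞) ρ) (j : Fin 2) :
    (fun q => (starRingEnd ℂ) (rj ρ j q)) = rjb ρ j := by
  funext q; exact (rjb_eq hρ j q).symm

lemma rj_fun (hρ : ContDiff ℝ ((⊤ : ℕ∞) : WithTop ℕ∞) ρ) (j : Fin 2) :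
    (fun q => (starRingEnd ℂ) (rjb ρ j q)) = rj ρ j := by
  funext q; exact conj_rjb hρ j q

lemma rjk_conj (hρ : ContDiff ℝ ((⊤ : ℕ∞) : WithTop ℕ∞) ρ) (j k : Fin 2) (p : C2) :
    (starRingEnd ℂ) (rjk ρ j k p) = rjk ρ k j p := by
  have h1 := dz_conj k (smooth_diff (rj_smooth hρ j) p)
  rw [rjb_fun hρ] at h1
  have h2 : dzb j (dz k (rc ρ)) p = dz k (dzb j (rc ρ)) p :=
    dzb_dz_comm k j (smooth_two (rc_smooth hρ) p)
  show (starRingEnd ℂ) (dzb k (rj ρ j) p) = dzb j (dz k (rc ρ)) p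
  rw [h2, ← h1]
  rfl

lemma gam_eq (p : C2) : gam ρ p =
    (rjk ρ 0 0 p * rj ρ 1 p - rjk ρ 1 0 p * rj ρ 0 p) * rjb ρ 1 p
      - (rjk ρ 0 1 p * rj ρ 1 p - rjk ρ 1 1 p * rj ρ 0 p) * rjb ρ 0 p := by
  unfold gam fC tau
  simp
  ring

lemma Lbar_rj (j : Fin 2) (p : C2) :
    Lbar ρ (rj ρ j) p = rjb ρ 1 p * rjk ρ j 0 p - rjb ρ 0 p * rjk ρ j 1 p := by
  unfold Lbar rjk
  simp [smul_eq_mul]

lemma alp_eq (p : C2) : alp ρ p =
    (rjb ρ 1 p * Lbar ρ (rj ρ 1) p + rjb ρ 0 p * Lbar ρ (rj ρ 0) p) / g2 ρ p := by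
  unfold alp sig
  simp

lemma g2_real (hρ : ContDiff ℝ ((⊤ : ℕ∞) : WithTop ℕ∞) ρ) (p : C2) :
    g2 ρ p = ((Complex.normSq (rj ρ 0 p) + Complex.normSq (rj ρ 1 p) : ℝ) : ℂ) := by
  unfold g2
  rw [rjb_eq hρ, rjb_eq hρ, Complex.mul_conj, Complex.mul_conj]
  push_cast
  rfl

lemma gam_conj (hρ : ContDiff ℝ ((⊤ : ℕ∞) : WithTop ℕ∞) ρ) (p : C2) :
    (starRingEnd ℂ) (gam ρ p) = gam ρ p := by
  rw [gam_eq]
  simp only [map_sub, map_mul, rjk_conj hρ, conj_rjb hρ]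
  rw [← rjb_eq hρ 0 p, ← rjb_eq hρ 1 p]
  ring

/-- the real derivative of rho from the complex ones -/
lemma fderiv_rc (hρ : ContDiff ℝ ((⊤ : ℕ∞) : WithTop ℕ∞) ρ) (p w : C2) :
    Dd w (rc ρ) p = ((fderiv ℝ ρ p w : ℝ) : ℂ) := by
  have hd : DifferentiableAt ℝ ρ p := (hρ.differentiable (by simp)) p
  have h : HasFDerivAt (rc ρ) (Complex.ofRealCLM.comp (fderiv ℝ ρ p)) p :=
    (Complex.ofRealCLM.hasFDerivAt (x := ρ p)).comp p hd.hasFDerivAt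
  unfold Dd
  rw [h.fderiv]
  rfl

lemma basis_sum (w : C2) : w = (w 0).re • (Pi.single 0 1 : C2) + (w 0).im • (Pi.single 0 I : C2)
    + (w 1).re • (Pi.single 1 1 : C2) + (w 1).im • (Pi.single 1 I : C2) := by
  funext i
  fin_cases i
  · simp
  · simp

lemma g2_ne_iff (hρ : ContDiff ℝ ((⊤ : ℕ∞) : WithTop ℕ∞) ρ) (p : C2) :
    g2 ρ p ≠ 0 ↔ fderiv ℝ ρ p ≠ 0 := by
  rw [not_iff_not]
  constructor
  · intro h
    rw [g2_real hρ] at h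
    have h' : Complex.normSq (rj ρ 0 p) + Complex.normSq (rj ρ 1 p) = 0 := by exact_mod_cast h
    have h0 : rj ρ 0 p = 0 := by
      have := Complex.normSq_nonneg (rj ρ 0 p)
      have := Complex.normSq_nonneg (rj ρ 1 p)
      exact Complex.normSq_eq_zero.mp (by linarith)
    have h1 : rj ρ 1 p = 0 := by
      have := Complex.normSq_nonneg (rj ρ 0 p)
      have := Complex.normSq_nonneg (rj ρ 1 p)
      exact Complex.normSq_eq_zero.mp (by linarith)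
    have key : ∀ j : Fin 2, rj ρ j p = 0 → fderiv ℝ ρ p (Pi.single j 1) = 0 ∧
        fderiv ℝ ρ p (Pi.single j I) = 0 := by
      intro j hj
      unfold rj at hj
      rw [dz_eq, fderiv_rc hρ, fderiv_rc hρ] at hj
      have hr := congrArg Complex.re hj
      have hi := congrArg Complex.im hj
      simp at hr hi
      exact ⟨hr, hi⟩
    obtain ⟨a0, b0⟩ := key 0 h0
    obtain ⟨a1, b1⟩ := key 1 h1
    ext w
    rw [basis_sum w]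
    simp [map_add, map_smul, a0, b0, a1, b1]
  · intro h
    have key : ∀ j : Fin 2, rj ρ j p = 0 := by
      intro j
      unfold rj
      rw [dz_eq, fderiv_rc hρ, fderiv_rc hρ, h]
      simp
    unfold g2
    rw [key 0, key 1]
    simp

lemma nsq_fun : nsq = fun q : C2 => q 0 * (starRingEnd ℂ) (q 0) + q 1 * (starRingEnd ℂ) (q 1) := by
  funext q
  unfold nsq
  rw [Complex.mul_conj, Complex.mul_conj]
  push_cast
  rfl

lemma dz_conj_coord (i j : Fin 2) (p : C2) :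
    dz j (fun q : C2 => (starRingEnd ℂ) (q i)) p = 0 := by
  rw [dz_conj j (differentiableAt_coord i p), dzb_coord]
  simp

lemma dzb_conj_coord (i j : Fin 2) (p : C2) :
    dzb j (fun q : C2 => (starRingEnd ℂ) (q i)) p = if i = j then 1 else 0 := by
  rw [dzb_conj j (differentiableAt_coord i p), dz_coord]
  split_ifs <;> simp

lemma dc (i : Fin 2) (p : C2) :
    DifferentiableAt ℝ (fun q : C2 => (starRingEnd ℂ) (q i)) p :=
  differentiableAt_conj (differentiableAt_coord i p)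

lemma dcc (i : Fin 2) (p : C2) :
    DifferentiableAt ℝ (fun q : C2 => q i * (starRingEnd ℂ) (q i)) p :=
  (differentiableAt_coord i p).mul (dc i p)

lemma dz_nsq (j : Fin 2) (p : C2) : dz j nsq p = (starRingEnd ℂ) (p j) := by
  rw [nsq_fun]
  rw [dz_add j (dcc 0 p) (dcc 1 p)]
  rw [dz_mul j (differentiableAt_coord 0 p) (dc 0 p),
    dz_mul j (differentiableAt_coord 1 p) (dc 1 p)]
  rw [dz_conj_coord, dz_conj_coord, dz_coord, dz_coord]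
  fin_cases j <;> simp

lemma dzb_nsq (j : Fin 2) (p : C2) : dzb j nsq p = p j := by
  rw [nsq_fun]
  rw [dzb_add j (dcc 0 p) (dcc 1 p)]
  rw [dzb_mul j (differentiableAt_coord 0 p) (dc 0 p),
    dzb_mul j (differentiableAt_coord 1 p) (dc 1 p)]
  rw [dzb_conj_coord, dzb_conj_coord, dzb_coord, dzb_coord]
  fin_cases j <;> simp

lemma Lhol_nsq : Lhol ρ nsq =
    fun q => rj ρ 1 q * (starRingEnd ℂ) (q 0) - rj ρ 0 q * (starRingEnd ℂ) (q 1) := by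
  funext q
  unfold Lhol
  rw [dz_nsq, dz_nsq, smul_eq_mul, smul_eq_mul]

lemma Lbar_nsq : Lbar ρ nsq = fun q => rjb ρ 1 q * q 0 - rjb ρ 0 q * q 1 := by
  funext q
  unfold Lbar
  rw [dzb_nsq, dzb_nsq, smul_eq_mul, smul_eq_mul]

/-- Lhol of the conjugate is the conjugate of Lbar. -/
lemma Lhol_conj (hρ : ContDiff ℝ ((⊤ : ℕ∞) : WithTop ℕ∞) ρ) {u : C2 → ℂ} {p : C2}
    (hu : DifferentiableAt ℝ u p) :
    Lhol ρ (fun q => (starRingEnd ℂ) (u q)) p = (starRingEnd ℂ) (Lbar ρ u p) := by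
  unfold Lhol Lbar
  rw [dz_conj 0 hu, dz_conj 1 hu]
  simp only [smul_eq_mul, map_sub, map_mul, conj_rjb hρ]

lemma Lbar_conj (hρ : ContDiff ℝ ((⊤ : ℕ∞) : WithTop ℕ∞) ρ) {u : C2 → ℂ} {p : C2}
    (hu : DifferentiableAt ℝ u p) :
    Lbar ρ (fun q => (starRingEnd ℂ) (u q)) p = (starRingEnd ℂ) (Lhol ρ u p) := by
  unfold Lhol Lbar
  rw [dzb_conj 0 hu, dzb_conj 1 hu]
  simp only [smul_eq_mul, map_sub, map_mul, rjb_eq hρ]

lemma Lbar_mul {u v : C2 → ℂ} {p : C2} (hu : DifferentiableAt ℝ u p)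
    (hv : DifferentiableAt ℝ v p) :
    Lbar ρ (fun q => u q * v q) p = u p * Lbar ρ v p + v p * Lbar ρ u p := by
  unfold Lbar
  rw [dzb_mul 0 hu hv, dzb_mul 1 hu hv]
  simp only [smul_eq_mul]
  ring

lemma Lbar_sub {u v : C2 → ℂ} {p : C2} (hu : DifferentiableAt ℝ u p)
    (hv : DifferentiableAt ℝ v p) :
    Lbar ρ (fun q => u q - v q) p = Lbar ρ u p - Lbar ρ v p := by
  unfold Lbar
  rw [dzb_sub 0 hu hv, dzb_sub 1 hu hv]
  simp only [smul_eq_mul]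
  ring

lemma id_one (p : C2) (hg : g2 ρ p ≠ 0) :
    Lbar ρ (rj ρ 1) p = - (gam ρ p * (rjb ρ 0 p / g2 ρ p)) + alp ρ p * rj ρ 1 p := by
  rw [alp_eq, gam_eq]
  rw [Lbar_rj, Lbar_rj]
  field_simp
  unfold g2
  ring

lemma id_zero (p : C2) (hg : g2 ρ p ≠ 0) :
    - Lbar ρ (rj ρ 0) p = - (gam ρ p * (rjb ρ 1 p / g2 ρ p)) - alp ρ p * rj ρ 0 p := by
  rw [alp_eq, gam_eq]
  rw [Lbar_rj, Lbar_rj]
  field_simp
  unfold g2
  ring

lemma Lbar_Lhol_nsq (hρ : ContDiff ℝ ((⊤ : ℕ∞) : WithTop ℕ∞) ρ) (p : C2) :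
    Lbar ρ (Lhol ρ nsq) p = Lbar ρ (rj ρ 1) p * (starRingEnd ℂ) (p 0)
      - Lbar ρ (rj ρ 0) p * (starRingEnd ℂ) (p 1) + g2 ρ p := by
  rw [Lhol_nsq]
  have d1 := smooth_diff (rj_smooth hρ 1) p
  have d0 := smooth_diff (rj_smooth hρ 0) p
  have m1 : DifferentiableAt ℝ (fun q : C2 => rj ρ 1 q * (starRingEnd ℂ) (q 0)) p := d1.mul (dc 0 p)
  have m0 : DifferentiableAt ℝ (fun q : C2 => rj ρ 0 q * (starRingEnd ℂ) (q 1)) p := d0.mul (dc 1 p)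
  rw [Lbar_sub m1 m0, Lbar_mul d1 (dc 0 p), Lbar_mul d0 (dc 1 p)]
  have e0 : Lbar ρ (fun q : C2 => (starRingEnd ℂ) (q 0)) p = rjb ρ 1 p := by
    unfold Lbar
    rw [dzb_conj_coord, dzb_conj_coord]
    simp
  have e1 : Lbar ρ (fun q : C2 => (starRingEnd ℂ) (q 1)) p = - rjb ρ 0 p := by
    unfold Lbar
    rw [dzb_conj_coord, dzb_conj_coord]
    simp
  rw [e0, e1]
  unfold g2
  ring

lemma Lhol_Lbar_nsq (hρ : ContDiff ℝ ((⊤ : ℕ∞) : WithTop ℕ∞) ρ) (p : C2) :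
    Lhol ρ (Lbar ρ nsq) p = (starRingEnd ℂ) (Lbar ρ (Lhol ρ nsq) p) := by
  have hs : Lbar ρ nsq = fun q => (starRingEnd ℂ) (Lhol ρ nsq q) := by
    rw [Lbar_nsq, Lhol_nsq]
    funext q
    simp only [map_sub, map_mul, Complex.conj_conj, rjb_eq hρ]
  rw [hs]
  apply Lhol_conj hρ
  rw [Lhol_nsq]
  exact ((smooth_diff (rj_smooth hρ 1) p).mul (dc 0 p)).sub
    ((smooth_diff (rj_smooth hρ 0) p).mul (dc 1 p))

lemma g2_conj (hρ : ContDiff ℝ ((⊤ : ℕ∞) : WithTop ℕ∞) ρ) (p : C2) :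
    (starRingEnd ℂ) (g2 ρ p) = g2 ρ p := by
  rw [g2_real hρ, Complex.conj_ofReal]

theorem b4 : B4Stmt := by
  intro ρ hρ p
  refine ⟨fun j => rjb_eq hρ j p, gam_conj hρ p, g2_real hρ p, g2_ne_iff hρ p, fun hg => ?_⟩
  refine ⟨id_one p hg, id_zero p hg, ?_⟩
  rw [Lhol_Lbar_nsq hρ, Lbar_Lhol_nsq hρ, Lhol_nsq, Lbar_nsq]
  simp only [map_add, map_sub, map_mul, Complex.conj_conj, g2_conj hρ]
  have h1 := id_one p hg
  have h0 := id_zero p hg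
  have h1c := congrArg (starRingEnd ℂ) h1
  have h0c := congrArg (starRingEnd ℂ) h0
  simp only [map_add, map_sub, map_mul, map_neg, map_div₀, gam_conj hρ, g2_conj hρ,
    conj_rjb hρ] at h1c h0c
  rw [← rjb_eq hρ 1 p] at h1c
  rw [← rjb_eq hρ 0 p] at h0c
  have hh : gam ρ p * ((rjb ρ 0 p * (starRingEnd ℂ) (p 0)
            + rjb ρ 1 p * (starRingEnd ℂ) (p 1) + rj ρ 0 p * p 0 + rj ρ 1 p * p 1) / g2 ρ p) =
      gam ρ p * (rjb ρ 0 p / g2 ρ p) * (starRingEnd ℂ) (p 0)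
      + gam ρ p * (rjb ρ 1 p / g2 ρ p) * (starRingEnd ℂ) (p 1)
      + gam ρ p * (rj ρ 0 p / g2 ρ p) * p 0 + gam ρ p * (rj ρ 1 p / g2 ρ p) * p 1 := by
    field_simp
  rw [hh]
  linear_combination (starRingEnd ℂ) (p 0) * h1 + (starRingEnd ℂ) (p 1) * h0
    + p 0 * h1c + p 1 * h0c

end Pool.Agent.AK.H70
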