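import Pool.Agent.Helper70_AK.Geom

set_option autoImplicit false

/-!
Squad AK, module B5: periodization of functions that are constant outside a small box.
-/

namespace Pool.Agent.AK.H70

open Complex

/-- the four real directions of C^2 -/
noncomputable def dir : Fin 4 → C2 :=
  ![Pi.single 0 1, Pi.single 0 I, Pi.single 1 1, Pi.single 1 I]

/-- linear map behind pc -/
noncomputable def pcL (R : ℝ) : R4 →L[ℝ] C2 :=
  ∑ j, (ContinuousLinearMap.proj (R := ℝ) (φ := fun _ : Fin 4 => ℝ) j).smulRight (R • dir j)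

/-- linear map behind xc -/
noncomputable def xcL (R : ℝ) : C2 →L[ℝ] R4 :=
  ContinuousLinearMap.pi ![
    R⁻¹ • Complex.reCLM.comp (ContinuousLinearMap.proj (R := ℝ) (φ := fun _ : Fin 2 => ℂ) 0),
    R⁻¹ • Complex.imCLM.comp (ContinuousLinearMap.proj (R := ℝ) (φ := fun _ : Fin 2 => ℂ) 0),
    R⁻¹ • Complex.reCLM.comp (ContinuousLinearMap.proj (R := ℝ) (φ := fun _ : Fin 2 => ℂ) 1),
    R⁻¹ • Complex.imCLM.comp (ContinuousLinearMap.proj (R := ℝ) (φ := fun _ : Fin 2 => ℂ) 1)]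

lemma xcL_eq (R : ℝ) (p : C2) : xcL R p = xc R p := by
  funext i
  fin_cases i <;> simp [xcL, xc, div_eq_inv_mul]

lemma pcL_apply (R : ℝ) (x : R4) : pcL R x = ∑ j, x j • (R • dir j) := by
  simp [pcL, ContinuousLinearMap.sum_apply]

lemma pcL_zero (R : ℝ) (x : R4) : pcL R x 0 = (R : ℂ) * ((x 0 : ℂ) + x 1 * I) := by
  rw [pcL_apply]
  simp [Fin.sum_univ_four, dir]
  ring

lemma pcL_one (R : ℝ) (x : R4) : pcL R x 1 = (R : ℂ) * ((x 2 : ℂ) + x 3 * I) := by
  rw [pcL_apply]
  simp [Fin.sum_univ_four, dir]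
  ring

lemma pcL_single (R : ℝ) (j : Fin 4) : pcL R (Pi.single j 1) = R • dir j := by
  rw [pcL_apply]
  rw [Finset.sum_eq_single j]
  · simp
  · intro b _ hb
    simp [Pi.single_apply, hb]
  · simp

lemma xc_pc {R : ℝ} (hR : R ≠ 0) (x : R4) : xc R (pcL R x) = x := by
  funext i
  fin_cases i
  · show (pcL R x 0).re / R = x 0
    rw [pcL_zero]; simp; field_simp
  · show (pcL R x 0).im / R = x 1
    rw [pcL_zero]; simp; field_simp
  · show (pcL R x 1).re / R = x 2
    rw [pcL_one]; simp; field_simp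
  · show (pcL R x 1).im / R = x 3
    rw [pcL_one]; simp; field_simp

lemma pc_xc {R : ℝ} (hR : R ≠ 0) (p : C2) : pcL R (xc R p) = p := by
  funext i
  have hR' : (R : ℂ) ≠ 0 := by exact_mod_cast hR
  fin_cases i
  · show pcL R (xc R p) 0 = p 0
    rw [pcL_zero]
    simp only [xc, Matrix.cons_val_zero, Matrix.cons_val_one]
    push_cast
    field_simp
    exact Complex.re_add_im (p 0)
  · show pcL R (xc R p) 1 = p 1
    rw [pcL_one]
    simp only [xc, Matrix.cons_val]
    push_cast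
    field_simp
    exact Complex.re_add_im (p 1)

lemma xcL_dir (R : ℝ) (j : Fin 4) : xcL R (dir j) = R⁻¹ • (Pi.single j 1 : R4) := by
  rw [xcL_eq]
  funext i
  fin_cases j <;> fin_cases i <;> simp [xc, dir, div_eq_inv_mul]

/-- the fractional part in the box [-1/2, 1/2] -/
noncomputable def fr (x : R4) : R4 := fun i => x i - round (x i)

/-- representative in C^2 -/
noncomputable def sg (R : ℝ) (x : R4) : C2 := pcL R (fr x)

/-- periodization -/
noncomputable def per (R : ℝ) (f : C2 → ℂ) (x : R4) : ℂ := f (sg R x)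

lemma fr_add (x : R4) (n : Fin 4 → ℤ) : fr (fun i => x i + ((n i : ℤ) : ℝ)) = fr x := by
  funext i
  simp only [fr, round_add_intCast]
  push_cast
  ring

lemma sg_add (R : ℝ) (x : R4) (n : Fin 4 → ℤ) : sg R (fun i => x i + ((n i : ℤ) : ℝ)) = sg R x := by
  unfold sg
  rw [fr_add]

/-- smooth functions that are constant where some coordinate exceeds eta -/
structure CG (R η : ℝ) (f : C2 → ℂ) : Prop where
  smooth : ContDiff ℝ ((⊤ : ℕ∞) : WithTop ℕ∞) f
  const : ∃ c, ∀ p, (∃ i, η < |xc R p i|) → f p = c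

lemma sg_xc {R : ℝ} (hR : R ≠ 0) {p : C2} (h : ∀ i, |xc R p i| < 1 / 2) : sg R (xc R p) = p := by
  have : fr (xc R p) = xc R p := by
    funext i
    have hr : round (xc R p i) = 0 := by
      rw [round_eq_zero_iff]
      have := abs_lt.mp (h i)
      constructor
      · linarith [this.1]
      · exact this.2
    simp [fr, hr]
  unfold sg
  rw [this, pc_xc hR]

lemma round_abs (a : ℝ) (m : ℤ) (h : round a ≠ m) : 1 / 2 ≤ |a - m| := by
  by_contra hc
  push_neg at hc
  apply h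
  have h1 := abs_lt.mp hc
  have h2 := abs_sub_round a
  have h3 := abs_le.mp h2
  -- |round a - m| < 1
  have h4 : |((round a - m : ℤ) : ℝ)| < 1 := by
    push_cast
    rw [abs_lt]
    constructor <;> linarith [h1.1, h1.2, h3.1, h3.2]
  have h5 : |round a - m| < 1 := by exact_mod_cast h4
  have := Int.abs_lt_one_iff.mp h5
  omega

lemma per_loc {R η : ℝ} (hR : R ≠ 0) (hη : η < 1 / 2) {f : C2 → ℂ} (hf : CG R η f) (x₀ y : R4)
    (hy : ∀ i, |y i - x₀ i| < 1 / 2 - η) :
    per R f y = f (pcL R (fun i => y i - ((round (x₀ i) : ℤ) : ℝ))) := by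
  by_cases h : ∀ i, round (y i) = round (x₀ i)
  · unfold per sg fr
    congr 2
    funext i
    rw [h i]
  · push_neg at h
    obtain ⟨i, hi⟩ := h
    obtain ⟨c, hc⟩ := hf.const
    have e1 : f (pcL R (fun i => y i - ((round (x₀ i) : ℤ) : ℝ))) = c := by
      apply hc
      refine ⟨i, ?_⟩
      rw [xc_pc hR]
      have := round_abs (y i) (round (x₀ i)) hi
      linarith
    have e2 : per R f y = c := by
      apply hc
      refine ⟨i, ?_⟩
      show η < |xc R (pcL R (fr y)) i|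
      rw [xc_pc hR]
      show η < |y i - ((round (y i) : ℤ) : ℝ)|
      have h1 : (1 : ℝ) ≤ |(((round (x₀ i)) - round (y i) : ℤ) : ℝ)| := by
        have : (1 : ℤ) ≤ |round (x₀ i) - round (y i)| := by
          apply Int.one_le_abs
          omega
        exact_mod_cast this
      have h2 := abs_sub_round (x₀ i)
      have h3 := hy i
      have h4 : |(((round (x₀ i)) - round (y i) : ℤ) : ℝ)| ≤
          |y i - ((round (y i) : ℤ) : ℝ)| + |y i - x₀ i| + |x₀ i - ((round (x₀ i) : ℤ) : ℝ)| := by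
        push_cast
        have e : ((round (x₀ i) : ℤ) : ℝ) - ((round (y i) : ℤ) : ℝ)
            = (y i - ((round (y i) : ℤ) : ℝ)) - (y i - x₀ i) - (x₀ i - ((round (x₀ i) : ℤ) : ℝ)) := by
          ring
        rw [e]
        exact le_trans (abs_sub _ _) (add_le_add (abs_sub _ _) le_rfl)
      linarith
    rw [e1, e2]

lemma per_ev {R η : ℝ} (hR : R ≠ 0) (hη : η < 1 / 2) {f : C2 → ℂ} (hf : CG R η f) (x₀ : R4) :
    per R f =ᶠ[nhds x₀] fun y => f (pcL R (fun i => y i - ((round (x₀ i) : ℤ) : ℝ))) := by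
  have h : ∀ᶠ y in nhds x₀, ∀ i, |y i - x₀ i| < 1 / 2 - η := by
    rw [Filter.eventually_all]
    intro i
    have : Continuous fun y : R4 => |y i - x₀ i| := by fun_prop
    apply this.continuousAt.eventually_lt continuousAt_const
    simp
    linarith
  filter_upwards [h] with y hy
  exact per_loc hR hη hf x₀ y hy

lemma shift_hasFDeriv {R : ℝ} (n : R4) (x : R4) :
    HasFDerivAt (fun y : R4 => pcL R (fun i => y i - n i)) (pcL R) x := by
  have h1 : HasFDerivAt (fun y : R4 => y - n) (ContinuousLinearMap.id ℝ R4) x :=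
    (hasFDerivAt_id x).sub_const n
  have h2 := (pcL R).hasFDerivAt.comp x h1
  exact h2

lemma per_contDiff {R η : ℝ} (hR : R ≠ 0) (hη : η < 1 / 2) {f : C2 → ℂ} (hf : CG R η f) :
    ContDiff ℝ ((⊤ : ℕ∞) : WithTop ℕ∞) (per R f) := by
  rw [contDiff_iff_contDiffAt]
  intro x₀
  have h1 : ContDiff ℝ ((⊤ : ℕ∞) : WithTop ℕ∞)
      (fun y : R4 => f (pcL R (fun i => y i - ((round (x₀ i) : ℤ) : ℝ)))) := by
    apply hf.smooth.comp
    apply (pcL R).contDiff.comp
    rw [contDiff_pi]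
    intro i
    exact (contDiff_apply ℝ ℝ i).sub contDiff_const
  exact h1.contDiffAt.congr_of_eventuallyEq (per_ev hR hη hf x₀)

lemma per_pd {R η : ℝ} (hR : R ≠ 0) (hη : η < 1 / 2) {f : C2 → ℂ} (hf : CG R η f) (j : Fin 4)
    (x : R4) : pd j (per R f) x = (R : ℂ) * Dd (dir j) f (sg R x) := by
  unfold pd
  rw [(per_ev hR hη hf x).fderiv_eq]
  have hd : DifferentiableAt ℝ f (pcL R (fun i => x i - ((round (x i) : ℤ) : ℝ))) :=
    smooth_diff hf.smooth _
  have h := hd.hasFDerivAt.comp x (shift_hasFDeriv (R := R) (fun i => ((round (x i) : ℤ) : ℝ)) x)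
  have h' : fderiv ℝ (fun y : R4 => f (pcL R (fun i => y i - ((round (x i) : ℤ) : ℝ)))) x
      = (fderiv ℝ f (pcL R (fun i => x i - ((round (x i) : ℤ) : ℝ)))).comp (pcL R) := h.fderiv
  rw [h', ContinuousLinearMap.comp_apply, pcL_single, map_smul]
  unfold Dd sg fr
  rw [Complex.real_smul]

lemma per_perSm {R η : ℝ} (hR : R ≠ 0) (hη : η < 1 / 2) {f : C2 → ℂ} (hf : CG R η f) :
    PerSm (per R f) := by
  refine ⟨per_contDiff hR hη hf, ?_⟩
  intro n x
  unfold per
  rw [sg_add]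

/-! ### closure properties of CG -/

lemma CG.add {R η : ℝ} {f g : C2 → ℂ} (hf : CG R η f) (hg : CG R η g) :
    CG R η (fun p => f p + g p) := by
  obtain ⟨c, hc⟩ := hf.const
  obtain ⟨d, hd⟩ := hg.const
  exact ⟨hf.smooth.add hg.smooth, c + d, fun p hp => by rw [hc p hp, hd p hp]⟩

lemma CG.sub {R η : ℝ} {f g : C2 → ℂ} (hf : CG R η f) (hg : CG R η g) :
    CG R η (fun p => f p - g p) := by
  obtain ⟨c, hc⟩ := hf.const
  obtain ⟨d, hd⟩ := hg.const
  exact ⟨hf.smooth.sub hg.smooth, c - d, fun p hp => by rw [hc p hp, hd p hp]⟩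

lemma CG.mul {R η : ℝ} {f g : C2 → ℂ} (hf : CG R η f) (hg : CG R η g) :
    CG R η (fun p => f p * g p) := by
  obtain ⟨c, hc⟩ := hf.const
  obtain ⟨d, hd⟩ := hg.const
  exact ⟨hf.smooth.mul hg.smooth, c * d, fun p hp => by rw [hc p hp, hd p hp]⟩

lemma CG.cst {R η : ℝ} (c : ℂ) : CG R η (fun _ => c) := ⟨contDiff_const, c, fun _ _ => rfl⟩

lemma CG.conj {R η : ℝ} {f : C2 → ℂ} (hf : CG R η f) :
    CG R η (fun p => (starRingEnd ℂ) (f p)) := by
  obtain ⟨c, hc⟩ := hf.const
  refine ⟨?_, (starRingEnd ℂ) c, fun p hp => by rw [hc p hp]⟩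
  exact (Complex.conjCLE : ℂ →L[ℝ] ℂ).contDiff.comp hf.smooth

lemma xc_continuous (R : ℝ) : Continuous (xc R) := by
  have : xc R = fun p => xcL R p := by funext p; rw [xcL_eq]
  rw [this]
  exact (xcL R).continuous

lemma CG.dd {R η : ℝ} {f : C2 → ℂ} (hf : CG R η f) (w : C2) : CG R η (Dd w f) := by
  obtain ⟨c, hc⟩ := hf.const
  refine ⟨Dd_smooth hf.smooth w, 0, ?_⟩
  rintro p ⟨i, hi⟩
  have hev : f =ᶠ[nhds p] fun _ => c := by
    have hcont : Continuous fun q : C2 => |xc R q i| := by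
      have h1 := xc_continuous R
      have h2 : Continuous fun q : C2 => xc R q i := (continuous_apply i).comp h1
      exact h2.abs
    have : ∀ᶠ q in nhds p, η < |xc R q i| :=
      continuousAt_const.eventually_lt hcont.continuousAt hi
    filter_upwards [this] with q hq
    exact hc q ⟨i, hq⟩
  unfold Dd
  rw [hev.fderiv_eq]
  simp

lemma CG.sum4 {R η : ℝ} {f : Fin 4 → C2 → ℂ} (hf : ∀ j, CG R η (f j)) :
    CG R η (fun p => ∑ j, f j p) := by
  have : (fun p => ∑ j, f j p) = fun p => f 0 p + f 1 p + f 2 p + f 3 p := by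
    funext p; rw [Fin.sum_univ_four]
  rw [this]
  exact (((hf 0).add (hf 1)).add (hf 2)).add (hf 3)

/-- the vector field on C^2 -/
noncomputable def vC (R : ℝ) (A : Fin 4 → C2 → ℂ) (f : C2 → ℂ) (p : C2) : ℂ :=
  ∑ j, A j p * ((R : ℂ) * Dd (dir j) f p)

lemma CG.vC {R η : ℝ} {A : Fin 4 → C2 → ℂ} {f : C2 → ℂ} (hA : ∀ j, CG R η (A j))
    (hf : CG R η f) : CG R η (vC R A f) := by
  apply CG.sum4
  intro j
  exact (hA j).mul ((CG.cst (R : ℂ)).mul (hf.dd _))

lemma vff_per {R η : ℝ} (hR : R ≠ 0) (hη : η < 1 / 2) (A : Fin 4 → C2 → ℂ) {f : C2 → ℂ}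
    (hf : CG R η f) : vff (fun j => per R (A j)) (per R f) = per R (H70.vC R A f) := by
  funext x
  unfold vff
  show ∑ j, per R (A j) x * pd j (per R f) x = H70.vC R A f (sg R x)
  unfold H70.vC
  refine Finset.sum_congr rfl fun j _ => ?_
  rw [per_pd hR hη hf]
  rfl

end Pool.Agent.AK.H70
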