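import Pool.Agent.Helper60_AK.StmtB

set_option autoImplicit false

/-!
Squad AK, modules B4 and B5: calculus of the Wirtinger derivatives in C^2.
-/

namespace Pool.Agent.AK.H70

open Complex

/-- derivative of u at p in direction w -/
noncomputable def Dd (w : C2) (u : C2 → ℂ) (p : C2) : ℂ := fderiv ℝ u p w

lemma dz_eq (j : Fin 2) (u : C2 → ℂ) (p : C2) :
    dz j u p = (1 / 2 : ℂ) * (Dd (Pi.single j 1) u p - Complex.I * Dd (Pi.single j Complex.I) u p) := by
  simp [dz, Dd, smul_eq_mul]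

lemma dzb_eq (j : Fin 2) (u : C2 → ℂ) (p : C2) :
    dzb j u p = (1 / 2 : ℂ) * (Dd (Pi.single j 1) u p + Complex.I * Dd (Pi.single j Complex.I) u p) := by
  simp [dzb, Dd, smul_eq_mul]

lemma Dd_add {u v : C2 → ℂ} {p : C2} (w : C2) (hu : DifferentiableAt ℝ u p)
    (hv : DifferentiableAt ℝ v p) : Dd w (fun q => u q + v q) p = Dd w u p + Dd w v p := by
  unfold Dd
  rw [fderiv_fun_add hu hv]
  rfl

lemma Dd_sub {u v : C2 → ℂ} {p : C2} (w : C2) (hu : DifferentiableAt ℝ u p)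
    (hv : DifferentiableAt ℝ v p) : Dd w (fun q => u q - v q) p = Dd w u p - Dd w v p := by
  unfold Dd
  rw [fderiv_fun_sub hu hv]
  rfl

lemma Dd_neg {u : C2 → ℂ} {p : C2} (w : C2) : Dd w (fun q => - u q) p = - Dd w u p := by
  unfold Dd
  rw [fderiv_fun_neg]
  rfl

lemma Dd_mul {u v : C2 → ℂ} {p : C2} (w : C2) (hu : DifferentiableAt ℝ u p)
    (hv : DifferentiableAt ℝ v p) :
    Dd w (fun q => u q * v q) p = u p * Dd w v p + v p * Dd w u p := by
  unfold Dd
  rw [fderiv_fun_mul hu hv]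
  simp [smul_eq_mul]

lemma Dd_const {p : C2} (w : C2) (c : ℂ) : Dd w (fun _ => c) p = 0 := by
  unfold Dd
  simp

lemma Dd_conj {u : C2 → ℂ} {p : C2} (w : C2) (hu : DifferentiableAt ℝ u p) :
    Dd w (fun q => (starRingEnd ℂ) (u q)) p = (starRingEnd ℂ) (Dd w u p) := by
  unfold Dd
  have h : HasFDerivAt (fun q => (starRingEnd ℂ) (u q))
      ((Complex.conjCLE : ℂ →L[ℝ] ℂ).comp (fderiv ℝ u p)) p := by
    have := (Complex.conjCLE : ℂ →L[ℝ] ℂ).hasFDerivAt (x := u p)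
    exact this.comp p hu.hasFDerivAt
  rw [h.fderiv]
  rfl

lemma Dd_coord {p : C2} (w : C2) (i : Fin 2) : Dd w (fun q => q i) p = w i := by
  unfold Dd
  have h : HasFDerivAt (fun q : C2 => q i)
      (ContinuousLinearMap.proj (R := ℝ) (φ := fun _ : Fin 2 => ℂ) i) p :=
    (ContinuousLinearMap.proj (R := ℝ) (φ := fun _ : Fin 2 => ℂ) i).hasFDerivAt
  rw [h.fderiv]
  rfl

lemma differentiableAt_coord (i : Fin 2) (p : C2) : DifferentiableAt ℝ (fun q : C2 => q i) p :=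
  (ContinuousLinearMap.proj (R := ℝ) (φ := fun _ : Fin 2 => ℂ) i).differentiableAt

lemma differentiableAt_conj {u : C2 → ℂ} {p : C2} (hu : DifferentiableAt ℝ u p) :
    DifferentiableAt ℝ (fun q => (starRingEnd ℂ) (u q)) p :=
  ((Complex.conjCLE : ℂ →L[ℝ] ℂ).differentiableAt (x := u p)).comp p hu

/-! ### rules for dz and dzb -/

lemma dz_add (j : Fin 2) {u v : C2 → ℂ} {p : C2} (hu : DifferentiableAt ℝ u p)
    (hv : DifferentiableAt ℝ v p) : dz j (fun q => u q + v q) p = dz j u p + dz j v p := by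
  simp only [dz_eq, Dd_add _ hu hv]; ring

lemma dzb_add (j : Fin 2) {u v : C2 → ℂ} {p : C2} (hu : DifferentiableAt ℝ u p)
    (hv : DifferentiableAt ℝ v p) : dzb j (fun q => u q + v q) p = dzb j u p + dzb j v p := by
  simp only [dzb_eq, Dd_add _ hu hv]; ring

lemma dz_sub (j : Fin 2) {u v : C2 → ℂ} {p : C2} (hu : DifferentiableAt ℝ u p)
    (hv : DifferentiableAt ℝ v p) : dz j (fun q => u q - v q) p = dz j u p - dz j v p := by
  simp only [dz_eq, Dd_sub _ hu hv]; ring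

lemma dzb_sub (j : Fin 2) {u v : C2 → ℂ} {p : C2} (hu : DifferentiableAt ℝ u p)
    (hv : DifferentiableAt ℝ v p) : dzb j (fun q => u q - v q) p = dzb j u p - dzb j v p := by
  simp only [dzb_eq, Dd_sub _ hu hv]; ring

lemma dz_mul (j : Fin 2) {u v : C2 → ℂ} {p : C2} (hu : DifferentiableAt ℝ u p)
    (hv : DifferentiableAt ℝ v p) :
    dz j (fun q => u q * v q) p = u p * dz j v p + v p * dz j u p := by
  simp only [dz_eq, Dd_mul _ hu hv]; ring

lemma dzb_mul (j : Fin 2) {u v : C2 → ℂ} {p : C2} (hu : DifferentiableAt ℝ u p)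
    (hv : DifferentiableAt ℝ v p) :
    dzb j (fun q => u q * v q) p = u p * dzb j v p + v p * dzb j u p := by
  simp only [dzb_eq, Dd_mul _ hu hv]; ring

lemma dz_conj (j : Fin 2) {u : C2 → ℂ} {p : C2} (hu : DifferentiableAt ℝ u p) :
    dz j (fun q => (starRingEnd ℂ) (u q)) p = (starRingEnd ℂ) (dzb j u p) := by
  have h2 : (starRingEnd ℂ) 2 = 2 := Complex.conj_ofNat 2
  simp only [dz_eq, dzb_eq, Dd_conj _ hu, map_mul, map_add, map_div₀, map_one,
    Complex.conj_I, h2]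
  ring

lemma dzb_conj (j : Fin 2) {u : C2 → ℂ} {p : C2} (hu : DifferentiableAt ℝ u p) :
    dzb j (fun q => (starRingEnd ℂ) (u q)) p = (starRingEnd ℂ) (dz j u p) := by
  have h2 : (starRingEnd ℂ) 2 = 2 := Complex.conj_ofNat 2
  simp only [dz_eq, dzb_eq, Dd_conj _ hu, map_mul, map_sub, map_div₀, map_one,
    Complex.conj_I, h2]
  ring

lemma dz_coord (i j : Fin 2) (p : C2) : dz j (fun q => q i) p = if i = j then 1 else 0 := by
  simp only [dz_eq, Dd_coord, Pi.single_apply]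
  split_ifs with h
  · have := Complex.I_mul_I
    linear_combination (-1 / 2 : ℂ) * this
  · simp

lemma dzb_coord (i j : Fin 2) (p : C2) : dzb j (fun q => q i) p = 0 := by
  simp only [dzb_eq, Dd_coord, Pi.single_apply]
  split_ifs with h
  · have := Complex.I_mul_I
    linear_combination (1 / 2 : ℂ) * this
  · simp

/-! ### second derivatives -/

lemma Dd_Dd {u : C2 → ℂ} {p : C2} (hu : ContDiffAt ℝ 2 u p) (v w : C2) :
    Dd v (Dd w u) p = fderiv ℝ (fderiv ℝ u) p v w := by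
  have h1 : DifferentiableAt ℝ (fderiv ℝ u) p := by
    have : ContDiffAt ℝ 1 (fderiv ℝ u) p := hu.fderiv_right (by norm_num)
    exact this.differentiableAt (by norm_num)
  unfold Dd
  have h2 : HasFDerivAt (fun q => fderiv ℝ u q w)
      ((ContinuousLinearMap.apply ℝ ℂ w).comp (fderiv ℝ (fderiv ℝ u) p)) p :=
    ((ContinuousLinearMap.apply ℝ ℂ w).hasFDerivAt (x := fderiv ℝ u p)).comp p h1.hasFDerivAt
  show fderiv ℝ (fun q => fderiv ℝ u q w) p v = _
  rw [h2.fderiv]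
  rfl

lemma Dd_symm {u : C2 → ℂ} {p : C2} (hu : ContDiffAt ℝ 2 u p) (v w : C2) :
    Dd v (Dd w u) p = Dd w (Dd v u) p := by
  rw [Dd_Dd hu, Dd_Dd hu]
  have := hu.isSymmSndFDerivAt (by simp)
  exact this v w

lemma Dd_differentiableAt {u : C2 → ℂ} {p : C2} (hu : ContDiffAt ℝ 2 u p) (w : C2) :
    DifferentiableAt ℝ (Dd w u) p := by
  have h1 : DifferentiableAt ℝ (fderiv ℝ u) p := by
    have : ContDiffAt ℝ 1 (fderiv ℝ u) p := hu.fderiv_right (by norm_num)
    exact this.differentiableAt (by norm_num)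
  exact ((ContinuousLinearMap.apply ℝ ℂ w).differentiableAt (x := fderiv ℝ u p)).comp p h1

lemma Dd_smooth {u : C2 → ℂ} (hu : ContDiff ℝ ((⊤ : ℕ∞) : WithTop ℕ∞) u) (w : C2) :
    ContDiff ℝ ((⊤ : ℕ∞) : WithTop ℕ∞) (Dd w u) := by
  have h1 : ContDiff ℝ ((⊤ : ℕ∞) : WithTop ℕ∞) (fderiv ℝ u) := hu.fderiv_right (by simp)
  exact (ContinuousLinearMap.apply ℝ ℂ w).contDiff.comp h1

lemma dz_fun (j : Fin 2) (u : C2 → ℂ) :
    dz j u = fun p => (1 / 2 : ℂ) * (Dd (Pi.single j 1) u p - Complex.I * Dd (Pi.single j Complex.I) u p) := by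
  funext p; exact dz_eq j u p

lemma dzb_fun (j : Fin 2) (u : C2 → ℂ) :
    dzb j u = fun p => (1 / 2 : ℂ) * (Dd (Pi.single j 1) u p + Complex.I * Dd (Pi.single j Complex.I) u p) := by
  funext p; exact dzb_eq j u p

lemma dz_smooth {u : C2 → ℂ} (hu : ContDiff ℝ ((⊤ : ℕ∞) : WithTop ℕ∞) u) (j : Fin 2) :
    ContDiff ℝ ((⊤ : ℕ∞) : WithTop ℕ∞) (dz j u) := by
  rw [dz_fun]
  exact contDiff_const.mul ((Dd_smooth hu _).sub (contDiff_const.mul (Dd_smooth hu _)))

lemma dzb_smooth {u : C2 → ℂ} (hu : ContDiff ℝ ((⊤ : ℕ∞) : WithTop ℕ∞) u) (j : Fin 2) :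
    ContDiff ℝ ((⊤ : ℕ∞) : WithTop ℕ∞) (dzb j u) := by
  rw [dzb_fun]
  exact contDiff_const.mul ((Dd_smooth hu _).add (contDiff_const.mul (Dd_smooth hu _)))

lemma Dd_lin (w : C2) {f g : C2 → ℂ} {p : C2} (c d : ℂ) (hf : DifferentiableAt ℝ f p)
    (hg : DifferentiableAt ℝ g p) :
    Dd w (fun q => c * (f q + d * g q)) p = c * (Dd w f p + d * Dd w g p) := by
  have hd : DifferentiableAt ℝ (fun q => d * g q) p := (differentiableAt_const d).mul hg
  have hs : DifferentiableAt ℝ (fun q => f q + d * g q) p := hf.add hd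
  rw [Dd_mul w (differentiableAt_const c) hs, Dd_const, Dd_add w hf hd,
    Dd_mul w (differentiableAt_const d) hg, Dd_const]
  ring

lemma dzb_dz_comm (j k : Fin 2) {u : C2 → ℂ} {p : C2} (hu : ContDiffAt ℝ 2 u p) :
    dzb k (dz j u) p = dz j (dzb k u) p := by
  have e1 : dz j u = fun q => (1 / 2 : ℂ) * (Dd (Pi.single j 1) u q
      + (- Complex.I) * Dd (Pi.single j Complex.I) u q) := by
    rw [dz_fun]; funext q; ring
  have e2 := dzb_fun k u
  have hd := fun w => Dd_differentiableAt hu w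
  rw [dzb_eq, dz_eq, e1, e2]
  rw [Dd_lin _ _ _ (hd _) (hd _), Dd_lin _ _ _ (hd _) (hd _), Dd_lin _ _ _ (hd _) (hd _),
    Dd_lin _ _ _ (hd _) (hd _)]
  rw [Dd_symm hu (Pi.single k 1) (Pi.single j 1), Dd_symm hu (Pi.single k 1) (Pi.single j I),
    Dd_symm hu (Pi.single k I) (Pi.single j 1), Dd_symm hu (Pi.single k I) (Pi.single j I)]
  ring

end Pool.Agent.AK.H70
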